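import Mathlib
set_option autoImplicit false
open MeasureTheory Filter Topology Set
open scoped ENNReal BigOperators

namespace Pool.Agent.H42.W

noncomputable section


/-- the fair coin on `Bool` -/
def coin : Measure Bool := (2⁻¹ : ℝ≥0∞) • (Measure.dirac true + Measure.dirac false)

instance : IsProbabilityMeasure coin := ⟨by
  simp only [coin, Measure.smul_apply, Measure.add_apply, measure_univ, smul_eq_mul]
  rw [show (1:ℝ≥0∞) + 1 = 2 by norm_num]
  exact ENNReal.inv_mul_cancel (by norm_num) (by norm_num)⟩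

theorem integral_coin (f : Bool → ℝ) : ∫ b, f b ∂coin = (f true + f false) / 2 := by
  unfold coin
  rw [integral_smul_measure, integral_add_measure (integrable_dirac (by simp)) (integrable_dirac (by simp)),
    integral_dirac, integral_dirac]
  simp
  ring

variable {Γ : Type*}

/-- the product of fair coins -/
def P (Γ : Type*) : Measure (Γ → Bool) := Measure.infinitePi (fun _ : Γ => coin)

instance : IsProbabilityMeasure (P Γ) := by unfold P; infer_instance

def sgn (b : Bool) : ℝ := if b then 1 else -1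

theorem sgn_mul_self (b : Bool) : sgn b * sgn b = 1 := by cases b <;> simp [sgn]

theorem abs_sgn (b : Bool) : |sgn b| = 1 := by cases b <;> simp [sgn]

/-- Walsh function -/
def χ (T : Finset Γ) (x : Γ → Bool) : ℝ := ∏ t ∈ T, sgn (x t)

theorem abs_χ (T : Finset Γ) (x : Γ → Bool) : |χ T x| = 1 := by
  unfold χ
  rw [Finset.abs_prod]
  exact Finset.prod_eq_one (fun t _ => abs_sgn _)

theorem measurable_sgn : Measurable sgn := measurable_from_top

theorem measurable_χ (T : Finset Γ) : Measurable (χ T) := by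
  unfold χ
  exact Finset.measurable_prod _ (fun t _ => measurable_sgn.comp (measurable_pi_apply t))

theorem χ_mul [DecidableEq Γ] (T T' : Finset Γ) (x : Γ → Bool) :
    χ T x * χ T' x = χ (symmDiff T T') x := by
  unfold χ
  have h1 : ∏ t ∈ T, sgn (x t) = (∏ t ∈ T \ T', sgn (x t)) * ∏ t ∈ T ∩ T', sgn (x t) := by
    rw [← Finset.prod_union (Finset.disjoint_sdiff_inter T T'), Finset.sdiff_union_inter]
  have h2 : ∏ t ∈ T', sgn (x t) = (∏ t ∈ T' \ T, sgn (x t)) * ∏ t ∈ T ∩ T', sgn (x t) := by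
    rw [Finset.inter_comm, ← Finset.prod_union (Finset.disjoint_sdiff_inter T' T),
      Finset.sdiff_union_inter]
  have h3 : symmDiff T T' = (T \ T') ∪ (T' \ T) := rfl
  rw [h3, Finset.prod_union (by
    rw [Finset.disjoint_left]; intro a ha hb
    simp only [Finset.mem_sdiff] at ha hb
    exact ha.2 hb.1), h1, h2]
  have h4 : (∏ t ∈ T ∩ T', sgn (x t)) * ∏ t ∈ T ∩ T', sgn (x t) = 1 := by
    rw [← Finset.prod_mul_distrib]
    exact Finset.prod_eq_one (fun t _ => sgn_mul_self _)
  calc _ = (∏ t ∈ T \ T', sgn (x t)) * (∏ t ∈ T' \ T, sgn (x t)) *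
      ((∏ t ∈ T ∩ T', sgn (x t)) * ∏ t ∈ T ∩ T', sgn (x t)) := by ring
    _ = _ := by rw [h4, mul_one]

theorem integral_χ [DecidableEq Γ] (T : Finset Γ) : ∫ x, χ T x ∂(P Γ) = if T = ∅ then 1 else 0 := by
  classical
  have h1 : ∀ x : Γ → Bool, χ T x = (fun y : T → Bool => ∏ t, sgn (y t)) (T.restrict x) := by
    intro x
    simp only [χ, Finset.restrict]
    exact (Finset.prod_attach T (fun t => sgn (x t))).symm
  simp_rw [h1]
  unfold P
  have hm : Measurable (fun y : T → Bool => ∏ t, sgn (y t)) :=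
    Finset.measurable_prod _ (fun t _ => measurable_sgn.comp (measurable_pi_apply t))
  rw [integral_restrict_infinitePi (μ := fun _ : Γ => coin)
    (f := fun y : T → Bool => ∏ t, sgn (y t)) hm.aestronglyMeasurable]
  rw [integral_fintype_prod_eq_prod (𝕜 := ℝ) (fun _ : T => sgn)]
  simp only [integral_coin]
  split_ifs with h
  · subst h
    simp
  · have hne : Nonempty T := by
      obtain ⟨t, ht⟩ := Finset.nonempty_iff_ne_empty.2 h
      exact ⟨⟨t, ht⟩⟩
    obtain ⟨t⟩ := hne
    exact Finset.prod_eq_zero (Finset.mem_univ t) (by simp [sgn])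

theorem integrable_of_bdd {f : (Γ → Bool) → ℝ} (hf : Measurable f) {C : ℝ} (hC : ∀ x, |f x| ≤ C) :
    Integrable f (P Γ) :=
  Integrable.of_bound hf.aestronglyMeasurable C (ae_of_all _ (fun x => by
    rw [Real.norm_eq_abs]; exact hC x))

/-- Walsh coefficient -/
def coef (f : (Γ → Bool) → ℝ) (T : Finset Γ) : ℝ := ∫ x, f x * χ T x ∂(P Γ)

theorem integral_χ_mul [DecidableEq Γ] (T T' : Finset Γ) :
    ∫ x, χ T x * χ T' x ∂(P Γ) = if T = T' then 1 else 0 := by
  simp_rw [χ_mul, integral_χ]
  have : (symmDiff T T' = ∅) ↔ T = T' := symmDiff_eq_bot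
  simp [this]

/-- Bessel inequality -/
theorem bessel (f : (Γ → Bool) → ℝ) (hf : Measurable f) (C : ℝ) (hC : ∀ x, |f x| ≤ C)
    (𝒯 : Finset (Finset Γ)) : ∑ T ∈ 𝒯, coef f T ^ 2 ≤ ∫ x, f x ^ 2 ∂(P Γ) := by
  classical
  have hC0 : 0 ≤ C := (abs_nonneg _).trans (hC (fun _ => true))
  let g : (Γ → Bool) → ℝ := fun x => ∑ T ∈ 𝒯, coef f T * χ T x
  have hg : Measurable g := Finset.measurable_sum _ (fun T _ => (measurable_χ T).const_mul _)
  have hgb : ∀ x, |g x| ≤ ∑ T ∈ 𝒯, |coef f T| := by
    intro x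
    refine (Finset.abs_sum_le_sum_abs _ _).trans (Finset.sum_le_sum fun T _ => ?_)
    rw [abs_mul, abs_χ, mul_one]
  have hG0 : 0 ≤ ∑ T ∈ 𝒯, |coef f T| := Finset.sum_nonneg fun _ _ => abs_nonneg _
  have hi1 : Integrable (fun x => f x ^ 2) (P Γ) := integrable_of_bdd (hf.pow_const 2) (C := C^2)
    (fun x => by rw [abs_pow]; exact pow_le_pow_left₀ (abs_nonneg _) (hC x) 2)
  have hi2 : Integrable (fun x => f x * g x) (P Γ) := integrable_of_bdd (hf.mul hg)
    (C := C * ∑ T ∈ 𝒯, |coef f T|) (fun x => by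
      rw [abs_mul]; exact mul_le_mul (hC x) (hgb x) (abs_nonneg _) hC0)
  have hi3 : Integrable (fun x => g x ^ 2) (P Γ) := integrable_of_bdd (hg.pow_const 2)
    (C := (∑ T ∈ 𝒯, |coef f T|)^2)
    (fun x => by rw [abs_pow]; exact pow_le_pow_left₀ (abs_nonneg _) (hgb x) 2)
  have e2 : ∫ x, f x * g x ∂(P Γ) = ∑ T ∈ 𝒯, coef f T ^ 2 := by
    have : ∀ x, f x * g x = ∑ T ∈ 𝒯, coef f T * (f x * χ T x) := by
      intro x
      simp only [g, Finset.mul_sum]
      exact Finset.sum_congr rfl (fun T _ => by ring)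
    simp_rw [this]
    rw [integral_finsetSum]
    · refine Finset.sum_congr rfl (fun T _ => ?_)
      rw [integral_const_mul]
      simp [coef, sq]
    · intro T _
      exact (integrable_of_bdd (hf.mul (measurable_χ T)) (C := C) (fun x => by
        rw [Pi.mul_apply, abs_mul, abs_χ, mul_one]; exact hC x)).const_mul _
  have e3 : ∫ x, g x ^ 2 ∂(P Γ) = ∑ T ∈ 𝒯, coef f T ^ 2 := by
    have : ∀ x, g x ^ 2 = ∑ T ∈ 𝒯, ∑ T' ∈ 𝒯, (coef f T * coef f T') * (χ T x * χ T' x) := by
      intro x
      simp only [g, sq, Finset.sum_mul_sum]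
      exact Finset.sum_congr rfl (fun T _ => Finset.sum_congr rfl (fun T' _ => by ring))
    simp_rw [this]
    have hint : ∀ T T' : Finset Γ, Integrable (fun x => (coef f T * coef f T') * (χ T x * χ T' x)) (P Γ) := by
      intro T T'
      exact (integrable_of_bdd ((measurable_χ T).mul (measurable_χ T')) (C := 1) (fun x => by
        rw [Pi.mul_apply, abs_mul, abs_χ, abs_χ, mul_one])).const_mul _
    rw [integral_finsetSum _ (fun T _ => integrable_finsetSum _ (fun T' _ => hint T T'))]
    refine Finset.sum_congr rfl (fun T hT => ?_)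
    rw [integral_finsetSum _ (fun T' _ => hint T T')]
    simp_rw [integral_const_mul, integral_χ_mul]
    simp [hT, sq]
  have hpos : 0 ≤ ∫ x, (f x - g x) ^ 2 ∂(P Γ) := integral_nonneg (fun x => sq_nonneg _)
  have e4 : ∫ x, (f x - g x) ^ 2 ∂(P Γ) = ∫ x, f x ^ 2 ∂(P Γ) - ∑ T ∈ 𝒯, coef f T ^ 2 := by
    have : ∀ x, (f x - g x) ^ 2 = f x ^ 2 - 2 * (f x * g x) + g x ^ 2 := fun x => by ring
    simp_rw [this]
    have a1 : ∫ x, (f x ^ 2 - 2 * (f x * g x) + g x ^ 2) ∂(P Γ) =
        ∫ x, (f x ^ 2 - 2 * (f x * g x)) ∂(P Γ) + ∫ x, g x ^ 2 ∂(P Γ) :=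
      integral_add (hi1.sub (hi2.const_mul 2)) hi3
    have a2 : ∫ x, (f x ^ 2 - 2 * (f x * g x)) ∂(P Γ) =
        ∫ x, f x ^ 2 ∂(P Γ) - ∫ x, 2 * (f x * g x) ∂(P Γ) := integral_sub hi1 (hi2.const_mul 2)
    rw [a1, a2, integral_const_mul, e2, e3]
    ring
  linarith

/-- a function depending only on the coordinates in `S` is a combination of Walsh functions -/
theorem exists_expansion [DecidableEq Γ] (S : Finset Γ) (h : (Γ → Bool) → ℝ)
    (hS : ∀ x y : Γ → Bool, (∀ s ∈ S, x s = y s) → h x = h y) :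
    ∃ c : Finset Γ → ℝ, ∀ x, h x = ∑ T ∈ S.powerset, c T * χ T x := by
  classical
  induction S using Finset.induction_on generalizing h with
  | empty =>
    refine ⟨fun _ => h (fun _ => true), fun x => ?_⟩
    simp only [Finset.powerset_empty, Finset.sum_singleton, χ, Finset.prod_empty, mul_one]
    exact hS _ _ (by simp)
  | insert a S ha ih =>
    let h1 : (Γ → Bool) → ℝ := fun x => (h (Function.update x a true) + h (Function.update x a false)) / 2
    let h2 : (Γ → Bool) → ℝ := fun x => (h (Function.update x a true) - h (Function.update x a false)) / 2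
    have hdep : ∀ (b : Bool) (x y : Γ → Bool), (∀ s ∈ S, x s = y s) →
        h (Function.update x a b) = h (Function.update y a b) := by
      intro b x y hxy
      apply hS
      intro s hs
      rcases Finset.mem_insert.1 hs with rfl | hs
      · simp
      · have : s ≠ a := fun hsa => ha (hsa ▸ hs)
        simp [this, hxy s hs]
    obtain ⟨c1, hc1⟩ := ih h1 (fun x y hxy => by simp only [h1]; rw [hdep true x y hxy, hdep false x y hxy])
    obtain ⟨c2, hc2⟩ := ih h2 (fun x y hxy => by simp only [h2]; rw [hdep true x y hxy, hdep false x y hxy])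
    refine ⟨fun T => if a ∈ T then c2 (T.erase a) else c1 T, fun x => ?_⟩
    have hx : h x = h1 x + sgn (x a) * h2 x := by
      have : Function.update x a (x a) = x := Function.update_eq_self a x
      cases hxa : x a
      · rw [hxa] at this
        simp only [h1, h2, sgn]
        rw [this]
        simp
        ring
      · rw [hxa] at this
        simp only [h1, h2, sgn]
        rw [this]
        simp
        ring
    rw [Finset.sum_powerset_insert ha, hx, hc1, hc2, Finset.mul_sum]
    congr 1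
    · refine Finset.sum_congr rfl (fun T hT => ?_)
      have : a ∉ T := fun h => ha (Finset.mem_powerset.1 hT h)
      simp [this]
    · refine Finset.sum_congr rfl (fun T hT => ?_)
      have haT : a ∉ T := fun h => ha (Finset.mem_powerset.1 hT h)
      simp only [Finset.mem_insert_self, if_true, Finset.erase_insert haT, χ,
        Finset.prod_insert haT]
      ring

theorem coef_of_expansion [DecidableEq Γ] (S : Finset Γ) (h : (Γ → Bool) → ℝ) (c : Finset Γ → ℝ)
    (hc : ∀ x, h x = ∑ T ∈ S.powerset, c T * χ T x) (T : Finset Γ) :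
    coef h T = if T ⊆ S then c T else 0 := by
  unfold coef
  have : ∀ x, h x * χ T x = ∑ T' ∈ S.powerset, c T' * (χ T' x * χ T x) := by
    intro x
    rw [hc, Finset.sum_mul]
    exact Finset.sum_congr rfl (fun _ _ => by ring)
  simp_rw [this]
  rw [integral_finsetSum]
  · simp_rw [integral_const_mul, integral_χ_mul]
    simp
  · intro T' _
    exact (integrable_of_bdd ((measurable_χ T').mul (measurable_χ T)) (C := 1) (fun x => by
        rw [Pi.mul_apply, abs_mul, abs_χ, abs_χ, mul_one])).const_mul _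

theorem parseval_of_expansion [DecidableEq Γ] (S : Finset Γ) (h : (Γ → Bool) → ℝ)
    (hS : ∀ x y : Γ → Bool, (∀ s ∈ S, x s = y s) → h x = h y) :
    ∫ x, h x ^ 2 ∂(P Γ) = ∑ T ∈ S.powerset, coef h T ^ 2 ∧ ∀ T, ¬ T ⊆ S → coef h T = 0 := by
  obtain ⟨c, hc⟩ := exists_expansion S h hS
  have hcoef := coef_of_expansion S h c hc
  refine ⟨?_, fun T hT => by rw [hcoef, if_neg hT]⟩
  have e1 : ∀ x, h x ^ 2 = ∑ T ∈ S.powerset, c T * (h x * χ T x) := by
    intro x
    rw [sq]
    nth_rewrite 2 [hc x]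
    rw [Finset.mul_sum]
    exact Finset.sum_congr rfl (fun _ _ => by ring)
  have hhm : Measurable h := by
    have : h = fun x => ∑ T ∈ S.powerset, c T * χ T x := funext hc
    rw [this]
    exact Finset.measurable_sum _ (fun T _ => (measurable_χ T).const_mul _)
  have hhb : ∀ x, |h x| ≤ ∑ T ∈ S.powerset, |c T| := by
    intro x
    rw [hc]
    refine (Finset.abs_sum_le_sum_abs _ _).trans (Finset.sum_le_sum fun T _ => ?_)
    rw [abs_mul, abs_χ, mul_one]
  simp_rw [e1]
  rw [integral_finsetSum]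
  · refine Finset.sum_congr rfl (fun T hT => ?_)
    rw [integral_const_mul]
    have : ∫ x, h x * χ T x ∂(P Γ) = coef h T := rfl
    rw [this, hcoef, if_pos (Finset.mem_powerset.1 hT)]
    ring
  · intro T _
    exact (integrable_of_bdd (hhm.mul (measurable_χ T)) (fun x => by
        rw [Pi.mul_apply, abs_mul, abs_χ, mul_one]; exact hhb x)).const_mul _



/-- a left-invariant finitely additive probability measure on all subsets -/
def Amenable (Γ : Type*) [Group Γ] : Prop :=
  ∃ m : Set Γ → ℝ, m univ = 1 ∧ (∀ A, 0 ≤ m A) ∧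
    (∀ A B, Disjoint A B → m (A ∪ B) = m A + m B) ∧
    ∀ (g : Γ) (A : Set Γ), m ((fun x => g * x) '' A) = m A

variable [Group Γ]

open scoped Classical in
theorem expansion (hna : ¬ Amenable Γ) :
    ∃ (F : Finset Γ) (κ : ℝ), 0 < κ ∧ ∀ (S : Finset Γ) (w : Γ → ℝ), (∀ s, 0 ≤ w s) →
      (∀ s, s ∉ S → w s = 0) →
      κ * ∑ s ∈ S, w s ≤ ∑ g ∈ F, ∑ s ∈ S ∪ S.image (fun x => g * x), |w (g⁻¹ * s) - w s| := by
  by_contra hcon
  push Not at hcon
  apply hna
  -- normalised witnesses
  have hw : ∀ i : Finset Γ × ℕ, ∃ (S : Finset Γ) (w : Γ → ℝ), (∀ s, 0 ≤ w s) ∧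
      (∀ s, s ∉ S → w s = 0) ∧ ∑ s ∈ S, w s = 1 ∧
      ∑ g ∈ i.1, ∑ s ∈ S ∪ S.image (fun x => g * x), |w (g⁻¹ * s) - w s| ≤ 1 / ((i.2 : ℝ) + 1) := by
    rintro ⟨F, n⟩
    obtain ⟨S, w, h1, h2, h3⟩ := hcon F (1 / ((n : ℝ) + 1)) (by positivity)
    have h4 : 0 ≤ ∑ g ∈ F, ∑ s ∈ S ∪ S.image (fun x => g * x), |w (g⁻¹ * s) - w s| :=
      Finset.sum_nonneg fun _ _ => Finset.sum_nonneg fun _ _ => abs_nonneg _
    have h5 : 0 < ∑ s ∈ S, w s := by
      have h6 : 0 < 1 / ((n : ℝ) + 1) * ∑ s ∈ S, w s := lt_of_le_of_lt h4 h3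
      have h7 : 0 < 1 / ((n : ℝ) + 1) := by positivity
      exact (mul_pos_iff_of_pos_left h7).1 h6
    set c := ∑ s ∈ S, w s with hc
    refine ⟨S, fun s => w s / c, fun s => div_nonneg (h1 s) h5.le, fun s hs => by
      simp [h2 s hs], ?_, ?_⟩
    · rw [← Finset.sum_div, ← hc, div_self h5.ne']
    · have : ∀ g s, |w (g⁻¹ * s) / c - w s / c| = |w (g⁻¹ * s) - w s| / c := by
        intro g s
        rw [← sub_div, abs_div, abs_of_pos h5]
      simp only [this, ← Finset.sum_div]
      rw [div_le_iff₀ h5]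
      exact h3.le
  choose S w hw0 hwS hw1 hwI using hw
  let mi : Finset Γ × ℕ → Set Γ → ℝ := fun i E => ∑ s ∈ (S i).filter (fun s => s ∈ E), w i s
  have hmi0 : ∀ i E, 0 ≤ mi i E := fun i E => Finset.sum_nonneg fun s _ => hw0 i s
  have hmi1 : ∀ i E, mi i E ≤ 1 := by
    intro i E
    rw [← hw1 i]
    exact Finset.sum_le_sum_of_subset_of_nonneg (Finset.filter_subset _ _) (fun s _ _ => hw0 i s)
  let U : Ultrafilter (Finset Γ × ℕ) := Ultrafilter.of atTop
  have hU : (U : Filter (Finset Γ × ℕ)) ≤ atTop := Ultrafilter.of_le _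
  have hlim : ∀ E : Set Γ, ∃ l, Tendsto (fun i => mi i E) U (𝓝 l) := by
    intro E
    have hc : IsCompact (Icc (0:ℝ) 1) := isCompact_Icc
    obtain ⟨l, -, hl⟩ := hc.ultrafilter_le_nhds (U.map (fun i => mi i E)) (by
      rw [le_principal_iff, Ultrafilter.mem_coe, Ultrafilter.mem_map]
      exact Filter.univ_mem' (fun i => ⟨hmi0 i E, hmi1 i E⟩))
    exact ⟨l, hl⟩
  choose m hm using hlim
  refine ⟨m, ?_, ?_, ?_, ?_⟩
  · have : ∀ i, mi i univ = 1 := by
      intro i
      simp only [mi, mem_univ, Finset.filter_true]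
      exact hw1 i
    have h1 := hm univ
    simp only [this] at h1
    exact tendsto_nhds_unique h1 tendsto_const_nhds
  · intro A
    exact ge_of_tendsto' (hm A) (fun i => hmi0 i A)
  · intro A B hAB
    have : ∀ i, mi i (A ∪ B) = mi i A + mi i B := by
      intro i
      simp only [mi]
      rw [← Finset.sum_union]
      · congr 1
        ext s
        simp only [Finset.mem_filter, Finset.mem_union, mem_union]
        tauto
      · rw [Finset.disjoint_left]
        intro s hs hs'
        exact Set.disjoint_left.1 hAB (Finset.mem_filter.1 hs).2 (Finset.mem_filter.1 hs').2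
    have h1 := hm (A ∪ B)
    simp only [this] at h1
    exact tendsto_nhds_unique h1 ((hm A).add (hm B))
  · intro g A
    have key : ∀ i : Finset Γ × ℕ, g ∈ i.1 →
        |mi i ((fun x => g * x) '' A) - mi i A| ≤ 1 / ((i.2 : ℝ) + 1) := by
      intro i hg
      set V := S i ∪ (S i).image (fun x => g * x) with hV
      have e1 : mi i ((fun x => g * x) '' A) = ∑ s ∈ V.filter (fun s => s ∈ (fun x => g * x) '' A), w i s := by
        simp only [mi]
        apply Finset.sum_subset
        · intro s hs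
          rw [Finset.mem_filter] at hs ⊢
          exact ⟨Finset.mem_union_left _ hs.1, hs.2⟩
        · intro s hs hs'
          apply hwS
          intro hsS
          exact hs' (Finset.mem_filter.2 ⟨hsS, (Finset.mem_filter.1 hs).2⟩)
      have e2 : mi i A = ∑ s ∈ V.filter (fun s => s ∈ (fun x => g * x) '' A), w i (g⁻¹ * s) := by
        simp only [mi]
        have e3 : ∑ s ∈ (S i).filter (fun s => s ∈ A), w i s =
            ∑ s ∈ ((S i).filter (fun s => s ∈ A)).image (fun x => g * x), w i (g⁻¹ * s) := by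
          rw [Finset.sum_image (fun a _ b _ hab => mul_left_cancel hab)]
          simp
        rw [e3]
        apply Finset.sum_subset
        · intro s hs
          rw [Finset.mem_image] at hs
          obtain ⟨a, ha, rfl⟩ := hs
          rw [Finset.mem_filter] at ha ⊢
          exact ⟨Finset.mem_union_right _ (Finset.mem_image_of_mem _ ha.1), ⟨a, ha.2, rfl⟩⟩
        · intro s hs hs'
          apply hwS
          intro hsS
          apply hs'
          rw [Finset.mem_image]
          refine ⟨g⁻¹ * s, ?_, by simp⟩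
          rw [Finset.mem_filter]
          refine ⟨hsS, ?_⟩
          obtain ⟨a, ha, has⟩ := (Finset.mem_filter.1 hs).2
          simp only at has
          rw [← has]
          simpa using ha
      rw [e1, e2, ← Finset.sum_sub_distrib]
      calc |∑ s ∈ V.filter (fun s => s ∈ (fun x => g * x) '' A), (w i s - w i (g⁻¹ * s))|
          ≤ ∑ s ∈ V.filter (fun s => s ∈ (fun x => g * x) '' A), |w i s - w i (g⁻¹ * s)| :=
            Finset.abs_sum_le_sum_abs _ _
        _ ≤ ∑ s ∈ V, |w i s - w i (g⁻¹ * s)| :=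
            Finset.sum_le_sum_of_subset_of_nonneg (Finset.filter_subset _ _) (fun _ _ _ => abs_nonneg _)
        _ = ∑ s ∈ V, |w i (g⁻¹ * s) - w i s| := by simp_rw [abs_sub_comm]
        _ ≤ ∑ g ∈ i.1, ∑ s ∈ S i ∪ (S i).image (fun x => g * x), |w i (g⁻¹ * s) - w i s| :=
            Finset.single_le_sum (f := fun g => ∑ s ∈ S i ∪ (S i).image (fun x => g * x), |w i (g⁻¹ * s) - w i s|)
              (fun _ _ => Finset.sum_nonneg fun _ _ => abs_nonneg _) hg
        _ ≤ _ := hwI i
    have hev : ∀ᶠ i : Finset Γ × ℕ in U, g ∈ i.1 := by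
      apply hU
      filter_upwards [eventually_ge_atTop (({g} : Finset Γ), 0)] with i hi
      exact hi.1 (Finset.mem_singleton_self g)
    have hsmall : Tendsto (fun i : Finset Γ × ℕ => 1 / ((i.2 : ℝ) + 1)) U (𝓝 0) := by
      have h1 : Tendsto (fun n : ℕ => 1 / ((n : ℝ) + 1)) atTop (𝓝 0) := tendsto_one_div_add_atTop_nhds_zero_nat
      have h2 : Tendsto (fun i : Finset Γ × ℕ => i.2) U atTop := by
        have : Tendsto (fun i : Finset Γ × ℕ => i.2) atTop atTop := by
          rw [← prod_atTop_atTop_eq]; exact tendsto_snd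
        exact this.mono_left hU
      exact h1.comp h2
    have hdiff : Tendsto (fun i => mi i ((fun x => g * x) '' A) - mi i A) U (𝓝 0) := by
      apply squeeze_zero_norm' _ hsmall
      filter_upwards [hev] with i hi
      rw [Real.norm_eq_abs]
      exact key i hi
    have h3 := (hm ((fun x => g * x) '' A)).sub (hm A)
    have h4 := tendsto_nhds_unique h3 hdiff
    linarith


/-- the Bernoulli shift -/
def shift (g : Γ) (x : Γ → Bool) : Γ → Bool := fun d => x (g⁻¹ * d)

theorem shift_one (x : Γ → Bool) : shift (1 : Γ) x = x := by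
  funext d; simp [shift]

theorem shift_mul (g h : Γ) (x : Γ → Bool) : shift (g * h) x = shift g (shift h x) := by
  funext d; simp [shift, mul_assoc]

theorem measurable_shift (g : Γ) : Measurable (shift g) :=
  measurable_pi_lambda _ (fun d => measurable_pi_apply _)

theorem mp_shift (g : Γ) : MeasurePreserving (shift g) (P Γ) (P Γ) := by
  refine ⟨measurable_shift g, ?_⟩
  have h := Measure.infinitePi_map_piCongrLeft (X := fun _ : Γ => Bool) (fun _ : Γ => coin) (Equiv.mulLeft g)
  have h2 : (MeasurableEquiv.piCongrLeft (fun _ : Γ => Bool) (Equiv.mulLeft g) :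
      (Γ → Bool) → (Γ → Bool)) = shift g := by
    funext x d
    have h3 := Equiv.piCongrLeft_apply_apply (fun _ : Γ => Bool) (Equiv.mulLeft g) x (g⁻¹ * d)
    simp only [Equiv.coe_mulLeft, mul_inv_cancel_left] at h3
    exact h3
  rw [← h2]
  exact h

theorem χ_shift [DecidableEq Γ] (T : Finset Γ) (g : Γ) (x : Γ → Bool) :
    χ T (shift g x) = χ (T.image (fun s => g⁻¹ * s)) x := by
  unfold χ shift
  rw [Finset.prod_image (fun a _ b _ hab => mul_left_cancel hab)]

theorem coef_shift [DecidableEq Γ] (h : (Γ → Bool) → ℝ) (g : Γ) (T : Finset Γ) :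
    coef (fun x => h (shift g x)) T = coef h (T.image (fun s => g * s)) := by
  unfold coef
  have h1 : ∀ x, h (shift g x) * χ T x =
      (fun y => h y * χ (T.image (fun s => g * s)) y) (shift g x) := by
    intro x
    simp only [χ_shift, Finset.image_image]
    congr 2
    ext s
    simp
  simp_rw [h1]
  have h2 : MeasurePreserving (shift g) (P Γ) (P Γ) := mp_shift g
  have he : MeasurableEmbedding (shift g : (Γ → Bool) → (Γ → Bool)) := by
    let e : (Γ → Bool) ≃ᵐ (Γ → Bool) :=
      { toFun := shift g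
        invFun := shift g⁻¹
        left_inv := fun x => by rw [← shift_mul]; simp [shift_one]
        right_inv := fun x => by rw [← shift_mul]; simp [shift_one]
        measurable_toFun := measurable_shift g
        measurable_invFun := measurable_shift g⁻¹ }
    exact e.measurableEmbedding
  exact h2.integral_comp he (fun y => h y * χ (T.image (fun s => g * s)) y)

open scoped Classical in
/-- the mass function -/
def wfun (h : (Γ → Bool) → ℝ) (𝒯 : Finset (Finset Γ)) (s : Γ) : ℝ :=
  ∑ T ∈ 𝒯, if s ∈ T then coef h T ^ 2 / (T.card : ℝ) else 0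

theorem wfun_nonneg (h : (Γ → Bool) → ℝ) (𝒯 : Finset (Finset Γ)) (s : Γ) : 0 ≤ wfun h 𝒯 s := by
  unfold wfun
  apply Finset.sum_nonneg
  intro T _
  split_ifs
  · positivity
  · exact le_refl _

open scoped Classical in
theorem sum_wfun (h : (Γ → Bool) → ℝ) (S : Finset Γ) :
    ∑ s ∈ S, wfun h S.powerset s = (∑ T ∈ S.powerset, coef h T ^ 2) - coef h ∅ ^ 2 := by
  unfold wfun
  rw [Finset.sum_comm]
  have h1 : ∀ T ∈ S.powerset, (∑ s ∈ S, if s ∈ T then coef h T ^ 2 / (T.card : ℝ) else 0) =
      if T = ∅ then 0 else coef h T ^ 2 := by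
    intro T hT
    rw [← Finset.sum_filter]
    have h2 : S.filter (fun s => s ∈ T) = T := by
      ext s
      simp only [Finset.mem_filter]
      exact ⟨fun h => h.2, fun h => ⟨Finset.mem_powerset.1 hT h, h⟩⟩
    rw [h2, Finset.sum_const, nsmul_eq_mul]
    split_ifs with h3
    · simp [h3]
    · have : (T.card : ℝ) ≠ 0 := by
        simpa using h3
      field_simp
  rw [Finset.sum_congr rfl h1]
  have h4 : ∀ T, (if T = ∅ then 0 else coef h T ^ 2) = coef h T ^ 2 - (if T = ∅ then coef h T ^ 2 else 0) := by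
    intro T; split_ifs <;> ring
  simp_rw [h4]
  rw [Finset.sum_sub_distrib]
  congr 1
  rw [Finset.sum_ite_eq']
  simp

open scoped Classical in
theorem sum_diff_wfun (h h' : (Γ → Bool) → ℝ) (𝒯 : Finset (Finset Γ)) (V : Finset Γ)
    (hV : ∀ T ∈ 𝒯, T ⊆ V) :
    ∑ s ∈ V, |wfun h' 𝒯 s - wfun h 𝒯 s| ≤ ∑ T ∈ 𝒯, |coef h' T ^ 2 - coef h T ^ 2| := by
  have h1 : ∀ s ∈ V, |wfun h' 𝒯 s - wfun h 𝒯 s| ≤
      ∑ T ∈ 𝒯, if s ∈ T then |coef h' T ^ 2 - coef h T ^ 2| / (T.card : ℝ) else 0 := by
    intro s _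
    unfold wfun
    rw [← Finset.sum_sub_distrib]
    refine (Finset.abs_sum_le_sum_abs _ _).trans (Finset.sum_le_sum fun T _ => ?_)
    split_ifs
    · rw [← sub_div, abs_div, Nat.abs_cast]
    · simp
  refine (Finset.sum_le_sum h1).trans ?_
  rw [Finset.sum_comm]
  refine Finset.sum_le_sum fun T hT => ?_
  rw [← Finset.sum_filter]
  have h2 : V.filter (fun s => s ∈ T) = T := by
    ext s
    simp only [Finset.mem_filter]
    exact ⟨fun h => h.2, fun h => ⟨hV T hT h, h⟩⟩
  rw [h2, Finset.sum_const, nsmul_eq_mul]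
  by_cases h3 : T = ∅
  · simp [h3]
  · have : (T.card : ℝ) ≠ 0 := by simpa using h3
    field_simp
    exact le_refl _

theorem sum_sq_diff_le (f f' : (Γ → Bool) → ℝ) (hf : Measurable f) (hf' : Measurable f')
    (hb : ∀ x, |f x| ≤ 1) (hb' : ∀ x, |f' x| ≤ 1) (𝒯 : Finset (Finset Γ)) :
    ∑ T ∈ 𝒯, |coef f' T ^ 2 - coef f T ^ 2| ≤ 2 * Real.sqrt (∫ x, (f' x - f x) ^ 2 ∂(P Γ)) := by
  classical
  have hint : ∀ (φ : (Γ → Bool) → ℝ), Measurable φ → (∀ x, |φ x| ≤ 1) → ∀ T : Finset Γ,
      Integrable (fun x => φ x * χ T x) (P Γ) := by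
    intro φ hφ hφb T
    exact integrable_of_bdd (hφ.mul (measurable_χ T)) (C := 1) (fun x => by
      rw [abs_mul, abs_χ, mul_one]; exact hφb x)
  have hsub : ∀ T, coef (fun x => f' x - f x) T = coef f' T - coef f T := by
    intro T
    unfold coef
    simp_rw [sub_mul]
    exact integral_sub (hint f' hf' hb' T) (hint f hf hb T)
  have hadd : ∀ T, coef (fun x => f' x + f x) T = coef f' T + coef f T := by
    intro T
    unfold coef
    simp_rw [add_mul]
    exact integral_add (hint f' hf' hb' T) (hint f hf hb T)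
  have h1 : ∀ T, |coef f' T ^ 2 - coef f T ^ 2| =
      |coef (fun x => f' x - f x) T| * |coef (fun x => f' x + f x) T| := by
    intro T
    rw [hsub, hadd, ← abs_mul]
    congr 1
    ring
  simp_rw [h1]
  refine (Real.sum_mul_le_sqrt_mul_sqrt _ _ _).trans ?_
  simp only [sq_abs]
  have hb1 : ∀ x, |f' x - f x| ≤ 2 := fun x => (abs_sub _ _).trans (by linarith [hb x, hb' x])
  have hb2 : ∀ x, |f' x + f x| ≤ 2 := fun x => (abs_add_le _ _).trans (by linarith [hb x, hb' x])
  have h2 := bessel (fun x => f' x - f x) (hf'.sub hf) 2 hb1 𝒯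
  have h3 := bessel (fun x => f' x + f x) (hf'.add hf) 2 hb2 𝒯
  have h4 : ∫ x, (f' x + f x) ^ 2 ∂(P Γ) ≤ 4 := by
    have : ∫ x, (f' x + f x) ^ 2 ∂(P Γ) ≤ ∫ _x, (4:ℝ) ∂(P Γ) := by
      apply integral_mono
      · exact integrable_of_bdd ((hf'.add hf).pow_const 2) (C := 4) (fun x => by
          have := hb2 x
          rw [abs_pow]
          nlinarith [abs_nonneg (f' x + f x)])
      · exact integrable_const _
      · intro x
        have := hb2 x
        simp only
        nlinarith [abs_nonneg (f' x + f x), sq_abs (f' x + f x)]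
    simpa using this
  calc Real.sqrt (∑ T ∈ 𝒯, coef (fun x => f' x - f x) T ^ 2) *
        Real.sqrt (∑ T ∈ 𝒯, coef (fun x => f' x + f x) T ^ 2)
      ≤ Real.sqrt (∫ x, (f' x - f x) ^ 2 ∂(P Γ)) * Real.sqrt 4 := by
        apply mul_le_mul (Real.sqrt_le_sqrt h2) (Real.sqrt_le_sqrt (h3.trans h4))
          (Real.sqrt_nonneg _) (Real.sqrt_nonneg _)
    _ = _ := by
        rw [show (4:ℝ) = 2 ^ 2 by norm_num, Real.sqrt_sq (by norm_num)]
        ring

/-- Main estimate for functions depending on finitely many coordinates. -/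
theorem cylinder_estimate {F : Finset Γ} {κ : ℝ} (hF : ∀ (S : Finset Γ) (w : Γ → ℝ), (∀ s, 0 ≤ w s) →
      (∀ s, s ∉ S → w s = 0) →
      κ * ∑ s ∈ S, w s ≤ ∑ g ∈ F, ∑ s ∈ (letI := Classical.decEq Γ; S ∪ S.image (fun x => g * x)), |w (g⁻¹ * s) - w s|)
    (S : Finset Γ) (h : (Γ → Bool) → ℝ) (hm : Measurable h) (hb : ∀ x, |h x| ≤ 1)
    (hS : ∀ x y : Γ → Bool, (∀ s ∈ S, x s = y s) → h x = h y) :
    κ * (∫ x, h x ^ 2 ∂(P Γ) - (∫ x, h x ∂(P Γ)) ^ 2) ≤
      ∑ g ∈ F, 2 * Real.sqrt (∫ x, (h (shift g⁻¹ x) - h x) ^ 2 ∂(P Γ)) := by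
  letI := Classical.decEq Γ
  obtain ⟨hpars, hzero⟩ := parseval_of_expansion S h hS
  have h0 : coef h ∅ = ∫ x, h x ∂(P Γ) := by
    unfold coef χ
    simp
  rw [hpars, ← h0, ← sum_wfun]
  refine (hF S (wfun h S.powerset) (wfun_nonneg _ _) ?_).trans ?_
  · intro s hs
    unfold wfun
    apply Finset.sum_eq_zero
    intro T hT
    rw [if_neg (fun hsT => hs (Finset.mem_powerset.1 hT hsT))]
  · refine Finset.sum_le_sum fun g _ => ?_
    set V := S ∪ S.image (fun x => g * x) with hV
    set h' : (Γ → Bool) → ℝ := fun x => h (shift g⁻¹ x) with hh'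
    have hSV : S ⊆ V := Finset.subset_union_left
    have e1 : ∀ s, wfun h S.powerset s = wfun h V.powerset s := by
      intro s
      unfold wfun
      apply Finset.sum_subset (Finset.powerset_mono.2 hSV)
      intro T _ hT
      rw [hzero T (fun hTS => hT (Finset.mem_powerset.2 hTS))]
      simp
    have hcoef' : ∀ T, coef h' T = coef h (T.image (fun s => g⁻¹ * s)) := fun T => coef_shift h g⁻¹ T
    have e2 : ∀ s, wfun h S.powerset (g⁻¹ * s) = wfun h' V.powerset s := by
      intro s
      have e3 : wfun h S.powerset (g⁻¹ * s) = wfun h' (S.image (fun x => g * x)).powerset s := by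
        unfold wfun
        apply Finset.sum_nbij' (fun T => T.image (fun x => g * x)) (fun T => T.image (fun x => g⁻¹ * x))
        · intro T hT
          rw [Finset.mem_powerset] at hT ⊢
          exact Finset.image_subset_image hT
        · intro T hT
          rw [Finset.mem_powerset] at hT ⊢
          have := Finset.image_subset_image (f := fun x => g⁻¹ * x) hT
          rw [Finset.image_image] at this
          refine this.trans ?_
          intro a ha
          simpa using ha
        · intro T _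
          ext a; simp
        · intro T _
          ext a; simp
        · intro T _
          have c1 : (T.image (fun x => g * x)).card = T.card :=
            Finset.card_image_of_injective _ (mul_right_injective g)
          have c2 : (T.image (fun x => g * x)).image (fun x => g⁻¹ * x) = T := by
            ext a; simp
          rw [hcoef', c1, c2]
          congr 1
          rw [Finset.mem_image]
          apply propext
          constructor
          · intro hT; exact ⟨g⁻¹ * s, hT, by simp⟩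
          · rintro ⟨a, ha, rfl⟩; simpa using ha
      rw [e3]
      unfold wfun
      apply Finset.sum_subset (Finset.powerset_mono.2 Finset.subset_union_right)
      intro T _ hT
      have : coef h' T = 0 := by
        rw [hcoef']
        apply hzero
        intro hsub
        apply hT
        rw [Finset.mem_powerset]
        intro a ha
        rw [Finset.mem_image]
        exact ⟨g⁻¹ * a, hsub (Finset.mem_image_of_mem _ ha), by simp⟩
      rw [this]
      simp
    have e4 : ∑ s ∈ V, |wfun h S.powerset (g⁻¹ * s) - wfun h S.powerset s| =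
        ∑ s ∈ V, |wfun h' V.powerset s - wfun h V.powerset s| := by
      refine Finset.sum_congr rfl fun s _ => ?_
      rw [e2, e1]
    rw [e4]
    refine (sum_diff_wfun h h' V.powerset V (fun T hT => Finset.mem_powerset.1 hT)).trans ?_
    exact sum_sq_diff_le h h' hm (hm.comp (measurable_shift _)) hb (fun x => hb _) _

open scoped symmDiff

theorem indicator_sq_sub (A B : Set (Γ → Bool)) (x : Γ → Bool) :
    (A.indicator (fun _ => (1:ℝ)) x - B.indicator (fun _ => (1:ℝ)) x) ^ 2 =
      (A ∆ B).indicator (fun _ => (1:ℝ)) x := by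
  by_cases hA : x ∈ A <;> by_cases hB : x ∈ B <;>
    simp [Set.indicator, hA, hB, Set.mem_symmDiff]

theorem strong_ergodic (hna : ¬ Amenable Γ) {δ : ℝ} (hδ : 0 < δ) :
    ∃ (F : Finset Γ) (ε : ℝ), 0 < ε ∧ ∀ B : Set (Γ → Bool), MeasurableSet B →
      (∀ g ∈ F, (P Γ).real ((shift g⁻¹ ⁻¹' B) ∆ B) ≤ ε) →
      (P Γ).real B * (1 - (P Γ).real B) ≤ δ := by
  classical
  obtain ⟨F, κ, hκ, hF⟩ := expansion hna
  set c : ℝ := (F.card : ℝ) with hc
  have hc0 : 0 ≤ c := Nat.cast_nonneg _
  set ε : ℝ := min (δ / 2) ((κ * δ / (4 * (c + 1))) ^ 2 / 3) with hε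
  have hε0 : 0 < ε := by
    apply lt_min (by linarith)
    have : 0 < κ * δ / (4 * (c + 1)) := by positivity
    positivity
  refine ⟨F, ε, hε0, fun B hB hinv => ?_⟩
  -- approximate by a cylinder
  have hdense : (P Γ).MeasureDense (measurableCylinders (fun _ : Γ => Bool)) :=
    Measure.MeasureDense.of_generateFrom_isSetAlgebra_finite (P Γ)
      isSetAlgebra_measurableCylinders (generateFrom_measurableCylinders).symm
  obtain ⟨B₀, hB₀, happ⟩ := hdense.approx B hB (measure_ne_top _ _) ε hε0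
  have hB₀m : MeasurableSet B₀ := hdense.measurable _ hB₀
  obtain ⟨S, S', hS', hB₀def⟩ := (mem_measurableCylinders _).1 hB₀
  have happ' : (P Γ).real (B ∆ B₀) ≤ ε := by
    rw [Measure.real]
    exact ENNReal.toReal_le_of_le_ofReal hε0.le happ.le
  set h : (Γ → Bool) → ℝ := B₀.indicator (fun _ => (1:ℝ)) with hh
  have hm : Measurable h := measurable_const.indicator hB₀m
  have hb : ∀ x, |h x| ≤ 1 := by
    intro x
    by_cases hx : x ∈ B₀ <;> simp [h, Set.indicator, hx]
  have hdep : ∀ x y : Γ → Bool, (∀ s ∈ S, x s = y s) → h x = h y := by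
    intro x y hxy
    have : x ∈ B₀ ↔ y ∈ B₀ := by
      rw [hB₀def, mem_cylinder, mem_cylinder]
      have : S.restrict x = S.restrict y := by
        funext s
        exact hxy s s.2
      rw [this]
    by_cases hx : x ∈ B₀
    · simp [h, Set.indicator, hx, this.1 hx]
    · have hy : y ∉ B₀ := fun hy => hx (this.2 hy)
      simp [h, Set.indicator, hx, hy]
  have hest := cylinder_estimate (F := F) (κ := κ) (by
    intro S w h1 h2
    convert hF S w h1 h2) S h hm hb hdep
  have e1 : ∫ x, h x ∂(P Γ) = (P Γ).real B₀ := by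
    rw [hh, integral_indicator hB₀m]
    simp
  have e2 : ∫ x, h x ^ 2 ∂(P Γ) = (P Γ).real B₀ := by
    rw [← e1]
    congr 1
    funext x
    by_cases hx : x ∈ B₀ <;> simp [h, Set.indicator, hx]
  have e3 : ∀ g ∈ F, ∫ x, (h (shift g⁻¹ x) - h x) ^ 2 ∂(P Γ) ≤ 3 * ε := by
    intro g hg
    have hms : Measurable (shift g⁻¹ : (Γ → Bool) → (Γ → Bool)) := measurable_shift g⁻¹
    have h1 : ∀ x, (h (shift g⁻¹ x) - h x) ^ 2 =
        ((shift g⁻¹ ⁻¹' B₀) ∆ B₀).indicator (fun _ => (1:ℝ)) x := by
      intro x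
      rw [← indicator_sq_sub]
      rfl
    simp_rw [h1]
    rw [integral_indicator ((hms hB₀m).symmDiff hB₀m)]
    simp only [integral_const, smul_eq_mul, mul_one]
    rw [measureReal_restrict_apply MeasurableSet.univ, univ_inter]
    have hsub : (shift g⁻¹ ⁻¹' B₀) ∆ B₀ ⊆
        (shift g⁻¹ ⁻¹' (B ∆ B₀)) ∪ (((shift g⁻¹ ⁻¹' B) ∆ B) ∪ (B ∆ B₀)) := by
      intro x
      simp only [Set.mem_symmDiff, mem_union, mem_preimage]
      tauto
    have hpre : (P Γ).real (shift g⁻¹ ⁻¹' (B ∆ B₀)) = (P Γ).real (B ∆ B₀) := by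
      rw [Measure.real, Measure.real, (mp_shift g⁻¹).measure_preimage (hB.symmDiff hB₀m).nullMeasurableSet]
    calc (P Γ).real ((shift g⁻¹ ⁻¹' B₀) ∆ B₀)
        ≤ (P Γ).real ((shift g⁻¹ ⁻¹' (B ∆ B₀)) ∪ (((shift g⁻¹ ⁻¹' B) ∆ B) ∪ (B ∆ B₀))) :=
          measureReal_mono hsub
      _ ≤ (P Γ).real (shift g⁻¹ ⁻¹' (B ∆ B₀)) + ((P Γ).real ((shift g⁻¹ ⁻¹' B) ∆ B) + (P Γ).real (B ∆ B₀)) :=
          (measureReal_union_le _ _).trans (by gcongr; exact measureReal_union_le _ _)
      _ ≤ ε + (ε + ε) := by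
          rw [hpre]
          gcongr
          exact hinv g hg
      _ = 3 * ε := by ring
  have e4 : Real.sqrt (3 * ε) ≤ κ * δ / (4 * (c + 1)) := by
    rw [Real.sqrt_le_left (by positivity)]
    have : ε ≤ (κ * δ / (4 * (c + 1))) ^ 2 / 3 := min_le_right _ _
    linarith
  have e5 : κ * ((P Γ).real B₀ - (P Γ).real B₀ ^ 2) ≤ κ * (δ / 2) := by
    rw [e1, e2] at hest
    refine hest.trans ?_
    calc ∑ g ∈ F, 2 * Real.sqrt (∫ x, (h (shift g⁻¹ x) - h x) ^ 2 ∂(P Γ))
        ≤ ∑ _g ∈ F, 2 * (κ * δ / (4 * (c + 1))) := by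
          refine Finset.sum_le_sum fun g hg => ?_
          have := (Real.sqrt_le_sqrt (e3 g hg)).trans e4
          linarith
      _ = c * (2 * (κ * δ / (4 * (c + 1)))) := by
          rw [Finset.sum_const, nsmul_eq_mul]
      _ ≤ κ * (δ / 2) := by
          have h6 : c * (2 * (κ * δ / (4 * (c + 1)))) = κ * (δ / 2) * (c / (c + 1)) := by
            field_simp
            ring
          rw [h6]
          have h7 : c / (c + 1) ≤ 1 := by
            rw [div_le_one (by linarith)]
            linarith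
          have h8 : 0 ≤ κ * (δ / 2) := by positivity
          nlinarith
  have e6 : (P Γ).real B₀ - (P Γ).real B₀ ^ 2 ≤ δ / 2 := le_of_mul_le_mul_left e5 hκ
  have e7 : |(P Γ).real B - (P Γ).real B₀| ≤ ε :=
    (abs_measureReal_sub_le_measureReal_symmDiff hB.nullMeasurableSet hB₀m.nullMeasurableSet).trans happ'
  have e8 : ε ≤ δ / 2 := min_le_left _ _
  have p0 : 0 ≤ (P Γ).real B := measureReal_nonneg
  have p1 : (P Γ).real B ≤ 1 := measureReal_le_one
  have q0 : 0 ≤ (P Γ).real B₀ := measureReal_nonneg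
  have q1 : (P Γ).real B₀ ≤ 1 := measureReal_le_one
  rw [abs_le] at e7
  nlinarith [e7.1, e7.2]

end

end Pool.Agent.H42.W
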