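import Mathlib
set_option autoImplicit false
open MeasureTheory Filter Topology Set ProbabilityTheory
open scoped ENNReal

namespace Pool.Agent.H42.W

noncomputable section

/-- uniform law on the unit interval, as a law on the line -/
def unif : Measure ℝ := volume.restrict (Ioo 0 1)

instance : IsProbabilityMeasure unif := ⟨by simp [unif]⟩

theorem continuous_cdf_of_nullSingleton (m : Measure ℝ) [IsProbabilityMeasure m] [NullSingletonClass m] :
    Continuous (cdf m) := by
  rw [continuous_iff_continuousAt]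
  intro x
  rw [(cdf m).mono.continuousAt_iff_leftLim_eq_rightLim, (cdf m).rightLim_eq]
  have h1 : (cdf m).measure {x} = 0 := by rw [measure_cdf]; exact measure_singleton x
  rw [StieltjesFunction.measure_singleton, ENNReal.ofReal_eq_zero] at h1
  have h2 : Function.leftLim (cdf m) x ≤ cdf m x := (cdf m).mono.leftLim_le le_rfl
  linarith

/-- quantile function -/
def quant (m : Measure ℝ) (t : ℝ) : ℝ :=
  open scoped Classical in if t ∈ Ioo (0:ℝ) 1 then sInf {x | t ≤ cdf m x} else 0

theorem quant_spec (m : Measure ℝ) [IsProbabilityMeasure m] [NullSingletonClass m] {t : ℝ}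
    (ht : t ∈ Ioo (0:ℝ) 1) : (∀ x, quant m t ≤ x ↔ t ≤ cdf m x) ∧ cdf m (quant m t) = t := by
  have hc := continuous_cdf_of_nullSingleton m
  have hne : ({x | t ≤ cdf m x} : Set ℝ).Nonempty := by
    obtain ⟨x, hx⟩ := ((tendsto_cdf_atTop m).eventually_const_le ht.2).exists
    exact ⟨x, hx⟩
  have hlow : ∃ x, cdf m x < t := ((tendsto_cdf_atBot m).eventually_lt_const ht.1).exists
  have hbdd : BddBelow {x | t ≤ cdf m x} := by
    obtain ⟨x, hx⟩ := hlow
    refine ⟨x, fun y hy => ?_⟩
    by_contra hlt
    exact absurd (hy.trans (monotone_cdf m (le_of_not_ge hlt))) (not_le.2 hx)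
  have hcl : IsClosed {x | t ≤ cdf m x} := isClosed_le continuous_const hc
  have hq : quant m t = sInf {x | t ≤ cdf m x} := by simp only [quant, ht, if_true]
  have hmem : t ≤ cdf m (quant m t) := by rw [hq]; exact hcl.csInf_mem hne hbdd
  have hgal : ∀ x, quant m t ≤ x ↔ t ≤ cdf m x := by
    intro x
    constructor
    · intro h
      exact hmem.trans (monotone_cdf m h)
    · intro h
      rw [hq]
      exact csInf_le hbdd h
  refine ⟨hgal, le_antisymm ?_ hmem⟩
  obtain ⟨y, hy⟩ : t ∈ range (cdf m) := by
    obtain ⟨a, ha⟩ := hlow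
    obtain ⟨b, hb⟩ := hne
    exact mem_range_of_exists_le_of_exists_ge hc ⟨a, ha.le⟩ ⟨b, hb⟩
  have : quant m t ≤ y := (hgal y).2 hy.ge
  exact (monotone_cdf m this).trans hy.le

theorem measurable_quant (m : Measure ℝ) [IsProbabilityMeasure m] [NullSingletonClass m] :
    Measurable (quant m) := by
  apply measurable_of_Iic
  intro x
  have : quant m ⁻¹' Iic x = (Ioo (0:ℝ) 1 ∩ Iic (cdf m x)) ∪
      ((Ioo (0:ℝ) 1)ᶜ ∩ {_t | (0:ℝ) ≤ x}) := by
    ext t
    by_cases ht : t ∈ Ioo (0:ℝ) 1
    · simp only [mem_preimage, mem_Iic, (quant_spec m ht).1 x, mem_union, mem_inter_iff, ht,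
        true_and, mem_compl_iff, not_true, false_and, or_false]
    · have : quant m t = 0 := by simp only [quant, ht, if_false]
      simp only [mem_preimage, mem_Iic, this, mem_union, mem_inter_iff, ht, false_and,
        mem_compl_iff, not_false_iff, true_and, false_or, mem_ofPred_eq]
  rw [this]
  exact (measurableSet_Ioo.inter measurableSet_Iic).union
    (measurableSet_Ioo.compl.inter (MeasurableSet.const _))

theorem unif_Iic {c : ℝ} (h0 : 0 ≤ c) (h1 : c ≤ 1) : unif (Iic c) = ENNReal.ofReal c := by
  rw [unif, Measure.restrict_apply measurableSet_Iic]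
  apply le_antisymm
  · calc volume (Iic c ∩ Ioo 0 1) ≤ volume (Ioc (0:ℝ) c) :=
        measure_mono (fun x (hx : x ∈ Iic c ∩ Ioo 0 1) => (⟨hx.2.1, hx.1⟩ : x ∈ Ioc 0 c))
      _ = ENNReal.ofReal c := by simp
  · calc ENNReal.ofReal c = volume (Ioo (0:ℝ) c) := by simp
      _ ≤ _ := measure_mono (fun x (hx : x ∈ Ioo 0 c) => (⟨hx.2.le, hx.1, hx.2.trans_le h1⟩ : x ∈ Iic c ∩ Ioo 0 1))

theorem map_quant (m : Measure ℝ) [IsProbabilityMeasure m] [NullSingletonClass m] :
    Measure.map (quant m) unif = m := by
  have hm := measurable_quant m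
  have : IsProbabilityMeasure (Measure.map (quant m) unif) :=
    Measure.isProbabilityMeasure_map hm.aemeasurable
  apply Measure.ext_of_Iic
  intro x
  rw [Measure.map_apply hm measurableSet_Iic, ← ofReal_cdf m x,
    ← unif_Iic (cdf_nonneg m x) (cdf_le_one m x)]
  rw [unif, Measure.restrict_apply (hm measurableSet_Iic), Measure.restrict_apply measurableSet_Iic]
  congr 1
  ext t
  simp only [mem_inter_iff, mem_preimage, mem_Iic]
  constructor
  · rintro ⟨h1, h2⟩
    exact ⟨((quant_spec m h2).1 x).1 h1, h2⟩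
  · rintro ⟨h1, h2⟩
    exact ⟨((quant_spec m h2).1 x).2 h1, h2⟩

variable {X Y : Type*} [MeasurableSpace X] [MeasurableSpace Y]

/-- measure preserving maps that are mutually inverse almost everywhere -/
structure AEInv (μ : Measure X) (ν : Measure Y) (f : X → Y) (g : Y → X) : Prop where
  mpf : MeasurePreserving f μ ν
  mpg : MeasurePreserving g ν μ
  gf : ∀ᵐ x ∂μ, g (f x) = x
  fg : ∀ᵐ y ∂ν, f (g y) = y

theorem AEInv.symm {μ : Measure X} {ν : Measure Y} {f : X → Y} {g : Y → X}
    (h : AEInv μ ν f g) : AEInv ν μ g f := ⟨h.mpg, h.mpf, h.fg, h.gf⟩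

theorem AEInv.trans {Z : Type*} [MeasurableSpace Z] {μ : Measure X} {ν : Measure Y}
    {ρ : Measure Z} {f : X → Y} {g : Y → X} {f' : Y → Z} {g' : Z → Y}
    (h : AEInv μ ν f g) (h' : AEInv ν ρ f' g') : AEInv μ ρ (f' ∘ f) (g ∘ g') := by
  refine ⟨h'.mpf.comp h.mpf, h.mpg.comp h'.mpg, ?_, ?_⟩
  · have h1 := h.mpf.quasiMeasurePreserving.ae h'.gf
    filter_upwards [h1, h.gf] with x hx hx'
    simp only [Function.comp_apply]
    rw [hx, hx']
  · have h1 := h'.mpg.quasiMeasurePreserving.ae h.fg
    filter_upwards [h1, h'.fg] with x hx hx'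
    simp only [Function.comp_apply]
    rw [hx, hx']

theorem exists_inv_unif [StandardBorelSpace X] (μ : Measure X) [IsProbabilityMeasure μ]
    [NullSingletonClass μ] : ∃ (f : X → ℝ) (g : ℝ → X), AEInv μ unif f g := by
  have : Nonempty X := nonempty_of_isProbabilityMeasure μ
  have he := measurableEmbedding_embeddingReal X
  set e := embeddingReal X with hedef
  set m := μ.map e with hmdef
  have : IsProbabilityMeasure m := Measure.isProbabilityMeasure_map he.measurable.aemeasurable
  have : NullSingletonClass m := by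
    refine ⟨fun y => ?_⟩
    rw [hmdef, he.map_apply]
    exact Set.Subsingleton.measure_zero (Set.subsingleton_singleton.preimage he.injective) _
  have hem : MeasurePreserving e μ m := ⟨he.measurable, rfl⟩
  have hr : Measurable he.invFun := he.measurable_invFun
  have hre : ∀ x, he.invFun (e x) = x := he.leftInverse_invFun
  have hrm : MeasurePreserving he.invFun m μ := by
    refine ⟨hr, ?_⟩
    rw [hmdef, Measure.map_map hr he.measurable]
    have : he.invFun ∘ e = id := funext hre
    rw [this, Measure.map_id]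
  have her : ∀ᵐ y ∂m, e (he.invFun y) = y := by
    have hms : MeasurableSet {y : ℝ | e (he.invFun y) = y} :=
      measurableSet_eq_fun (he.measurable.comp hr) measurable_id
    rw [hmdef, ae_map_iff he.measurable.aemeasurable hms]
    exact ae_of_all _ (fun x => by rw [hre])
  have hqm : MeasurePreserving (quant m) unif m := ⟨measurable_quant m, map_quant m⟩
  have hFm : Measurable (cdf m) := (monotone_cdf m).measurable
  have hFq : ∀ᵐ t ∂unif, cdf m (quant m t) = t := by
    have : ∀ᵐ t ∂unif, t ∈ Ioo (0:ℝ) 1 := ae_restrict_mem measurableSet_Ioo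
    filter_upwards [this] with t ht
    exact (quant_spec m ht).2
  have hFmp : MeasurePreserving (cdf m) m unif := by
    refine ⟨hFm, ?_⟩
    have h1 : Measure.map (cdf m) (Measure.map (quant m) unif) = unif := by
      rw [Measure.map_map hFm (measurable_quant m)]
      have : (cdf m ∘ quant m) =ᵐ[unif] id := hFq
      rw [Measure.map_congr this, Measure.map_id]
    rwa [map_quant m] at h1
  have hqF : ∀ᵐ y ∂m, quant m (cdf m y) = y := by
    have hms : MeasurableSet {y : ℝ | quant m (cdf m y) = y} :=
      measurableSet_eq_fun ((measurable_quant m).comp hFm) measurable_id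
    have h1 : ∀ᵐ y ∂(Measure.map (quant m) unif), quant m (cdf m y) = y := by
      rw [ae_map_iff (measurable_quant m).aemeasurable hms]
      filter_upwards [hFq] with t ht
      rw [ht]
    rwa [map_quant m] at h1
  have H1 : AEInv μ m e he.invFun := ⟨hem, hrm, ae_of_all _ hre, her⟩
  have H2 : AEInv m unif (cdf m) (quant m) := ⟨hFmp, hqm, hqF, hFq⟩
  exact ⟨_, _, H1.trans H2⟩

/-- the isomorphism theorem for atomless standard probability spaces -/
theorem exists_inv [StandardBorelSpace X] [StandardBorelSpace Y] (μ : Measure X)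
    [IsProbabilityMeasure μ] [NullSingletonClass μ] (ν : Measure Y) [IsProbabilityMeasure ν] [NullSingletonClass ν] :
    ∃ (f : X → Y) (g : Y → X), AEInv μ ν f g := by
  obtain ⟨f, g, h⟩ := exists_inv_unif μ
  obtain ⟨f', g', h'⟩ := exists_inv_unif ν
  exact ⟨_, _, h.trans h'.symm⟩

end

end Pool.Agent.H42.W
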