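import Mathlib
import Pool.Agent.H42.Bernoulli
import Pool.Agent.H42.StdIso
set_option autoImplicit false
open MeasureTheory Filter Topology Set
open scoped ENNReal BigOperators

namespace Pool.Agent.H42.W

noncomputable section

variable {Γ : Type*}

theorem indep_signs {ι : Type*} [DecidableEq Γ] (S : Finset ι) (U : ι → Finset Γ)
    (hne : ∀ i ∈ S, (U i).Nonempty) (hd : (S : Set ι).PairwiseDisjoint U) (σ : ι → ℝ)
    (hσ : ∀ i, σ i = 1 ∨ σ i = -1) :
    (P Γ).real {x | ∀ i ∈ S, χ (U i) x = σ i} = (1 / 2) ^ S.card := by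
  classical
  have hχ : ∀ (T : Finset Γ) (x : Γ → Bool), χ T x = 1 ∨ χ T x = -1 := by
    intro T x
    have := abs_χ T x
    rcases abs_eq (zero_le_one) |>.1 this with h | h
    · exact Or.inl h
    · exact Or.inr h
  have hms : MeasurableSet {x : Γ → Bool | ∀ i ∈ S, χ (U i) x = σ i} := by
    have : {x : Γ → Bool | ∀ i ∈ S, χ (U i) x = σ i} = ⋂ i ∈ S, {x | χ (U i) x = σ i} := by
      ext x; simp
    rw [this]
    exact Finset.measurableSet_biInter _ (fun i _ =>
      measurableSet_eq_fun (measurable_χ _) measurable_const)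
  have hind : ∀ x : Γ → Bool, ({x : Γ → Bool | ∀ i ∈ S, χ (U i) x = σ i}).indicator (fun _ => (1:ℝ)) x
      = ∏ i ∈ S, (σ i * χ (U i) x / 2 + 1 / 2) := by
    intro x
    by_cases hx : ∀ i ∈ S, χ (U i) x = σ i
    · rw [Set.indicator_of_mem (show x ∈ {x : Γ → Bool | ∀ i ∈ S, χ (U i) x = σ i} from hx)]
      symm
      apply Finset.prod_eq_one
      intro i hi
      rw [hx i hi]
      rcases hσ i with h | h <;> rw [h] <;> norm_num
    · rw [Set.indicator_of_notMem (show x ∉ {x : Γ → Bool | ∀ i ∈ S, χ (U i) x = σ i} from hx)]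
      symm
      push Not at hx
      obtain ⟨i, hi, hne⟩ := hx
      apply Finset.prod_eq_zero hi
      rcases hσ i with h | h <;> rcases hχ (U i) x with h' | h'
      · exact absurd (h'.trans h.symm) hne
      · rw [h, h']; norm_num
      · rw [h, h']; norm_num
      · exact absurd (h'.trans h.symm) hne
  have h1 : (P Γ).real {x | ∀ i ∈ S, χ (U i) x = σ i} =
      ∫ x, ∏ i ∈ S, (σ i * χ (U i) x / 2 + 1 / 2) ∂(P Γ) := by
    simp_rw [← hind]
    rw [integral_indicator hms]
    simp
  rw [h1]
  have h2 : ∀ x : Γ → Bool, ∏ i ∈ S, (σ i * χ (U i) x / 2 + 1 / 2) =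
      ∑ T ∈ S.powerset, ((∏ i ∈ T, (σ i / 2)) * (∏ i ∈ S \ T, (1 / 2 : ℝ))) * χ (T.biUnion U) x := by
    intro x
    rw [Finset.prod_add]
    refine Finset.sum_congr rfl (fun T hT => ?_)
    have h3 : χ (T.biUnion U) x = ∏ i ∈ T, χ (U i) x := by
      unfold χ
      rw [Finset.prod_biUnion]
      exact hd.subset (fun i hi => Finset.mem_powerset.1 hT hi)
    rw [h3]
    have h4 : ∏ i ∈ T, (σ i * χ (U i) x / 2) = (∏ i ∈ T, (σ i / 2)) * ∏ i ∈ T, χ (U i) x := by
      rw [← Finset.prod_mul_distrib]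
      exact Finset.prod_congr rfl (fun i _ => by ring)
    rw [h4]
    ring
  simp_rw [h2]
  rw [integral_finsetSum]
  · simp_rw [integral_const_mul, integral_χ]
    rw [Finset.sum_eq_single ∅]
    · simp
    · intro T hT hT'
      have : T.biUnion U ≠ ∅ := by
        obtain ⟨i, hi⟩ := Finset.nonempty_iff_ne_empty.2 hT'
        obtain ⟨a, ha⟩ := hne i (Finset.mem_powerset.1 hT hi)
        exact Finset.nonempty_iff_ne_empty.1 ⟨a, Finset.mem_biUnion.2 ⟨i, hi, ha⟩⟩
      simp [this]
    · intro h
      exact absurd (Finset.empty_mem_powerset S) h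
  · intro T _
    exact (integrable_of_bdd (measurable_χ _) (C := 1) (fun x => (abs_χ _ _).le)).const_mul _

theorem measure_zero_of_pow {E : Set (Γ → Bool)} (h : ∀ m : ℕ, (P Γ).real E ≤ (1 / 2) ^ m) :
    P Γ E = 0 := by
  have h1 : (P Γ).real E ≤ 0 := by
    have : Tendsto (fun m : ℕ => ((1:ℝ) / 2) ^ m) atTop (𝓝 0) :=
      tendsto_pow_atTop_nhds_zero_of_lt_one (by norm_num) (by norm_num)
    exact ge_of_tendsto' this h
  have h2 : (P Γ).real E = 0 := le_antisymm h1 measureReal_nonneg
  exact (measureReal_eq_zero_iff).1 h2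

instance nullSingleton_P [Infinite Γ] : NullSingletonClass (P Γ) := by
  classical
  refine ⟨fun x₀ => measure_zero_of_pow fun m => ?_⟩
  obtain ⟨S, hS⟩ := Infinite.exists_subset_card_eq Γ m
  have h1 := indep_signs (Γ := Γ) S (fun i => {i}) (fun i _ => Finset.singleton_nonempty i)
    (fun i _ j _ hij => by simpa using hij) (fun i => sgn (x₀ i))
    (fun i => by cases x₀ i <;> simp [sgn])
  rw [hS] at h1
  rw [← h1]
  refine measureReal_mono ?_ (measure_ne_top _ _)
  intro x hx
  rw [mem_singleton_iff] at hx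
  subst hx
  intro i _
  simp [χ]

theorem exists_sep [Group Γ] [Infinite Γ] {g : Γ} (hg : g ≠ 1) (m : ℕ) :
    ∃ S : Finset Γ, S.card = m ∧ ∀ a ∈ S, ∀ b ∈ S, a ≠ g⁻¹ * b := by
  classical
  induction m with
  | zero => exact ⟨∅, rfl, by simp⟩
  | succ m ih =>
    obtain ⟨S, hS, hsep⟩ := ih
    obtain ⟨h, hh⟩ := Infinite.exists_notMem_finset
      (S ∪ S.image (fun b => g⁻¹ * b) ∪ S.image (fun b => g * b))
    simp only [Finset.mem_union, Finset.mem_image, not_or, not_exists, not_and] at hh
    obtain ⟨⟨h1, h2⟩, h3⟩ := hh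
    refine ⟨insert h S, by rw [Finset.card_insert_of_notMem h1, hS], ?_⟩
    intro a ha b hb
    rw [Finset.mem_insert] at ha hb
    intro hab
    rcases ha with ha | ha <;> rcases hb with hb | hb
    · apply hg
      rw [ha, hb] at hab
      have : g⁻¹ * h = 1 * h := by rw [one_mul]; exact hab.symm
      have h4 := mul_right_cancel this
      exact inv_eq_one.1 h4
    · exact h2 b hb (hab.symm.trans ha)
    · apply h3 a ha
      rw [hab, hb]
      simp
    · exact hsep a ha b hb hab

theorem shift_free [Group Γ] [Infinite Γ] {g : Γ} (hg : g ≠ 1) :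
    ∀ᵐ x ∂(P Γ), shift g x ≠ x := by
  classical
  rw [ae_iff]
  simp only [ne_eq, not_not]
  refine measure_zero_of_pow fun m => ?_
  obtain ⟨S, hS, hsep⟩ := exists_sep hg m
  have hga : ∀ a, a ≠ g⁻¹ * a := by
    intro a hab
    apply hg
    have : g⁻¹ * a = 1 * a := by rw [one_mul]; exact hab.symm
    exact inv_eq_one.1 (mul_right_cancel this)
  have h1 := indep_signs (Γ := Γ) S (fun i => {i, g⁻¹ * i}) (fun i _ => Finset.insert_nonempty _ _)
    (fun i hi j hj hij => by
      rw [Function.onFun, Finset.disjoint_left]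
      intro a ha hb
      simp only [Finset.mem_insert, Finset.mem_singleton] at ha hb
      rcases ha with rfl | rfl
      · rcases hb with rfl | hb
        · exact hij rfl
        · exact hsep _ hi _ hj hb
      · rcases hb with hb | hb
        · exact hsep _ hj _ hi hb.symm
        · exact hij (mul_left_cancel hb)) (fun _ => 1)
    (fun i => Or.inl rfl)
  rw [hS] at h1
  rw [← h1]
  refine measureReal_mono ?_ (measure_ne_top _ _)
  intro x hx i _
  have hx' : shift g x = x := hx
  have h2 : x (g⁻¹ * i) = x i := congrFun hx' i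
  show χ {i, g⁻¹ * i} x = 1
  unfold χ
  rw [Finset.prod_pair (hga i), h2, sgn_mul_self]

theorem infinite_of_not_amenable [Group Γ] (h : ¬ Amenable Γ) : Infinite Γ := by
  by_contra hinf
  rw [not_infinite_iff_finite] at hinf
  apply h
  have hc : (0:ℝ) < Nat.card Γ := by exact_mod_cast Nat.card_pos
  refine ⟨fun A => (A.ncard : ℝ) / Nat.card Γ, ?_, ?_, ?_, ?_⟩
  · simp only [Set.ncard_univ]
    exact div_self hc.ne'
  · intro A
    positivity
  · intro A B hAB
    simp only
    rw [Set.ncard_union_eq hAB]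
    push_cast
    ring
  · intro g A
    simp only
    rw [Set.ncard_image_of_injective _ (mul_right_injective g)]

end

end Pool.Agent.H42.W
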