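import Mathlib
set_option autoImplicit false
open MeasureTheory Filter Topology Set

namespace Pool.Agent.H42.Width

universe u v w

/-- A left-invariant finitely additive probability measure exists on all subsets of `Γ`. -/
def Amenable (Γ : Type u) [Group Γ] : Prop :=
  ∃ m : Set Γ → ℝ, m univ = 1 ∧ (∀ A, 0 ≤ m A) ∧
    (∀ A B, Disjoint A B → m (A ∪ B) = m A + m B) ∧
    ∀ (g : Γ) (A : Set Γ), m ((fun x => g * x) '' A) = m A

/-- A probability measure preserving action of `Γ` on `(X, μ)`. -/
structure PMPAction (Γ : Type u) [Group Γ] {X : Type v} [MeasurableSpace X] (μ : Measure X) where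
  act : Γ → X → X
  act_one : ∀ x, act 1 x = x
  act_mul : ∀ g h x, act (g * h) x = act g (act h x)
  mp : ∀ g, MeasurePreserving (act g) μ μ

variable {Γ : Type u} [Group Γ] {X : Type v} [MeasurableSpace X] {μ : Measure X}
  {Y : Type w} [MeasurableSpace Y] {ν : Measure Y}

/-- Freeness: every `g ≠ 1` moves almost every point. -/
def PMPAction.IsFree (a : PMPAction Γ μ) : Prop := ∀ g : Γ, g ≠ 1 → ∀ᵐ x ∂μ, a.act g x ≠ x

/-- `WeakContained b a`: the action `b` is weakly contained in the action `a`. -/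
def WeakContained (b : PMPAction Γ μ) (a : PMPAction Γ ν) : Prop :=
  ∀ (F : Finset Γ) (ε : ℝ), 0 < ε → ∀ (n : ℕ) (A : Fin n → Set X), (∀ i, MeasurableSet (A i)) →
    ∃ B : Fin n → Set Y, (∀ i, MeasurableSet (B i)) ∧ ∀ g ∈ F, ∀ i j,
      |μ.real ((b.act g '' A i) ∩ A j) - ν.real ((a.act g '' B i) ∩ B j)| < ε

/-- Antichains of free actions for weak containment. -/
def IsFreeAntichain (S : Set (PMPAction Γ μ)) : Prop :=
  (∀ a ∈ S, a.IsFree) ∧
    ∀ a ∈ S, ∀ b ∈ S, a ≠ b → ¬ WeakContained a b ∧ ¬ WeakContained b a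

/-- The supremum of the cardinalities of antichains of free actions. -/
noncomputable def width (Γ : Type u) [Group Γ] {X : Type v} [MeasurableSpace X]
    (μ : Measure X) : Cardinal.{max u v} :=
  sSup {c | ∃ S : Set (PMPAction Γ μ), IsFreeAntichain S ∧ Cardinal.mk S = c}

end Pool.Agent.H42.Width
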