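import Mathlib
import Pool.Agent.H42.Free
import Pool.Agent.H42.WidthDefs
set_option autoImplicit false
open MeasureTheory Filter Topology Set
open scoped ENNReal

namespace Pool.Agent.H42.Width

universe u v w

variable {Γ : Type u} [Group Γ] {X : Type v} [MeasurableSpace X] {μ : Measure X}
  {Y : Type w} [MeasurableSpace Y] {ν : Measure Y}

noncomputable section

theorem PMPAction.act_inv_act (a : PMPAction Γ μ) (g : Γ) (x : X) : a.act g⁻¹ (a.act g x) = x := by
  rw [← a.act_mul, inv_mul_cancel, a.act_one]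

theorem PMPAction.act_act_inv (a : PMPAction Γ μ) (g : Γ) (x : X) : a.act g (a.act g⁻¹ x) = x := by
  rw [← a.act_mul, mul_inv_cancel, a.act_one]

theorem PMPAction.image_eq (a : PMPAction Γ μ) (g : Γ) (A : Set X) :
    a.act g '' A = a.act g⁻¹ ⁻¹' A := by
  ext x
  constructor
  · rintro ⟨y, hy, rfl⟩
    simpa [PMPAction.act_inv_act] using hy
  · intro hx
    exact ⟨_, hx, a.act_act_inv g x⟩

theorem WeakContained.trans {Z : Type*} [MeasurableSpace Z] {ρ : Measure Z}
    {a : PMPAction Γ μ} {b : PMPAction Γ ν} {c : PMPAction Γ ρ} (hab : WeakContained a b)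
    (hbc : WeakContained b c) : WeakContained a c := by
  intro F ε hε n A hA
  obtain ⟨B, hB, h1⟩ := hab F (ε / 2) (by linarith) n A hA
  obtain ⟨C, hC, h2⟩ := hbc F (ε / 2) (by linarith) n B hB
  refine ⟨C, hC, fun g hg i j => ?_⟩
  have e1 := h1 g hg i j
  have e2 := h2 g hg i j
  calc |μ.real ((a.act g '' A i) ∩ A j) - ρ.real ((c.act g '' C i) ∩ C j)|
      ≤ |μ.real ((a.act g '' A i) ∩ A j) - ν.real ((b.act g '' B i) ∩ B j)| +
        |ν.real ((b.act g '' B i) ∩ B j) - ρ.real ((c.act g '' C i) ∩ C j)| := abs_sub_le _ _ _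
    _ < ε := by linarith

theorem WeakContained.refl (a : PMPAction Γ μ) : WeakContained a a := by
  intro F ε hε n A hA
  exact ⟨A, hA, fun g _ i j => by simpa using hε⟩

theorem weakContained_of_factor (T : PMPAction Γ μ) (S : PMPAction Γ ν) (f : X → Y)
    (hf : MeasurePreserving f μ ν) (heq : ∀ g, ∀ᵐ x ∂μ, f (T.act g x) = S.act g (f x)) :
    WeakContained S T := by
  intro F ε hε n A hA
  refine ⟨fun i => f ⁻¹' A i, fun i => hf.measurable (hA i), fun g _ i j => ?_⟩
  have h1 : ν.real ((S.act g '' A i) ∩ A j) = μ.real (f ⁻¹' ((S.act g '' A i) ∩ A j)) := by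
    rw [S.image_eq, Measure.real, Measure.real, hf.measure_preimage
      (((S.mp g⁻¹).measurable (hA i)).inter (hA j)).nullMeasurableSet]
  have h2 : μ.real (f ⁻¹' ((S.act g '' A i) ∩ A j)) =
      μ.real ((T.act g '' (f ⁻¹' A i)) ∩ (f ⁻¹' A j)) := by
    rw [Measure.real, Measure.real, S.image_eq, T.image_eq]
    congr 1
    apply measure_congr
    filter_upwards [heq g⁻¹] with x hx
    apply propext
    show (S.act g⁻¹ (f x) ∈ A i ∧ f x ∈ A j) ↔ (f (T.act g⁻¹ x) ∈ A i ∧ f x ∈ A j)
    rw [hx]
  rw [h1, h2]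
  simpa using hε

section transport

variable {f : X → Y} {g : Y → X}

/-- the invariant conull set on which the transported action lives -/
def good (S : PMPAction Γ ν) (f : X → Y) (g : Y → X) : Set X :=
  {x | g (f x) = x ∧ ∀ γ, f (g (S.act γ (f x))) = S.act γ (f x)}

theorem good_step {S : PMPAction Γ ν} {x : X} (hx : x ∈ good S f g) (γ : Γ) :
    f (g (S.act γ (f x))) = S.act γ (f x) ∧ g (S.act γ (f x)) ∈ good S f g := by
  refine ⟨hx.2 γ, ?_, fun δ => ?_⟩
  · rw [hx.2 γ]
  · rw [hx.2 γ, ← S.act_mul]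
    exact hx.2 (δ * γ)

theorem ae_good [Countable Γ] (H : Pool.Agent.H42.W.AEInv μ ν f g) (S : PMPAction Γ ν) :
    ∀ᵐ x ∂μ, x ∈ good S f g := by
  have h1 : ∀ᵐ x ∂μ, ∀ γ, f (g (S.act γ (f x))) = S.act γ (f x) := by
    rw [ae_all_iff]
    intro γ
    exact ((S.mp γ).comp H.mpf).quasiMeasurePreserving.ae H.fg
  filter_upwards [H.gf, h1] with x h2 h3
  exact ⟨h2, h3⟩

theorem measurableSet_good [Countable Γ] [StandardBorelSpace X] [StandardBorelSpace Y]
    (H : Pool.Agent.H42.W.AEInv μ ν f g) (S : PMPAction Γ ν) : MeasurableSet (good S f g) := by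
  have h1 : good S f g = {x | g (f x) = x} ∩ ⋂ γ, {x | f (g (S.act γ (f x))) = S.act γ (f x)} := by
    ext x
    simp [good]
  rw [h1]
  have hf := H.mpf.measurable
  have hg := H.mpg.measurable
  refine (measurableSet_eq_fun (hg.comp hf) measurable_id).inter (MeasurableSet.iInter fun γ => ?_)
  have hS : Measurable (fun x => S.act γ (f x)) := (S.mp γ).measurable.comp hf
  exact measurableSet_eq_fun (hf.comp (hg.comp hS)) hS

open scoped Classical in
/-- the action on `X` obtained from an action on `Y` through an isomorphism mod null sets -/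
def transport [Countable Γ] [StandardBorelSpace X] [StandardBorelSpace Y]
    (H : Pool.Agent.H42.W.AEInv μ ν f g) (S : PMPAction Γ ν) : PMPAction Γ μ where
  act γ x := if x ∈ good S f g then g (S.act γ (f x)) else x
  act_one x := by
    by_cases hx : x ∈ good S f g
    · rw [if_pos hx, S.act_one, hx.1]
    · rw [if_neg hx]
  act_mul γ δ x := by
    by_cases hx : x ∈ good S f g
    · obtain ⟨h1, h2⟩ := good_step hx δ
      rw [if_pos hx, if_pos hx, if_pos h2, h1, S.act_mul]
    · rw [if_neg hx, if_neg hx, if_neg hx]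
  mp γ := by
    have hm : MeasurePreserving (fun x => g (S.act γ (f x))) μ μ :=
      H.mpg.comp ((S.mp γ).comp H.mpf)
    have hmeas : Measurable (fun x => if x ∈ good S f g then g (S.act γ (f x)) else x) :=
      Measurable.ite (measurableSet_good H S) hm.measurable measurable_id
    refine ⟨hmeas, ?_⟩
    have : (fun x => if x ∈ good S f g then g (S.act γ (f x)) else x) =ᵐ[μ]
        (fun x => g (S.act γ (f x))) := by
      filter_upwards [ae_good H S] with x hx
      rw [if_pos hx]
    rw [Measure.map_congr this]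
    exact hm.map_eq

theorem transport_act [Countable Γ] [StandardBorelSpace X] [StandardBorelSpace Y]
    (H : Pool.Agent.H42.W.AEInv μ ν f g) (S : PMPAction Γ ν) (γ : Γ) {x : X}
    (hx : x ∈ good S f g) : (transport H S).act γ x = g (S.act γ (f x)) := by
  classical
  exact if_pos hx

theorem transport_free [Countable Γ] [StandardBorelSpace X] [StandardBorelSpace Y]
    (H : Pool.Agent.H42.W.AEInv μ ν f g) (S : PMPAction Γ ν) (hS : S.IsFree) :
    (transport H S).IsFree := by
  intro γ hγ
  have h1 := H.mpf.quasiMeasurePreserving.ae (hS γ hγ)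
  filter_upwards [h1, ae_good H S] with x hx hgood hfix
  apply hx
  have h2 : (transport H S).act γ x = g (S.act γ (f x)) := transport_act H S γ hgood
  rw [h2] at hfix
  rw [← hgood.2 γ, hfix]

theorem wc_transport_left [Countable Γ] [StandardBorelSpace X] [StandardBorelSpace Y]
    (H : Pool.Agent.H42.W.AEInv μ ν f g) (S : PMPAction Γ ν) :
    WeakContained S (transport H S) := by
  apply weakContained_of_factor (transport H S) S f H.mpf
  intro γ
  filter_upwards [ae_good H S] with x hx
  rw [transport_act H S γ hx, hx.2 γ]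

theorem wc_transport_right [Countable Γ] [StandardBorelSpace X] [StandardBorelSpace Y]
    (H : Pool.Agent.H42.W.AEInv μ ν f g) (S : PMPAction Γ ν) :
    WeakContained (transport H S) S := by
  apply weakContained_of_factor S (transport H S) g H.mpg
  intro γ
  have h1 := H.mpg.quasiMeasurePreserving.ae (ae_good H S)
  filter_upwards [h1, H.fg] with y hy hy2
  rw [transport_act H S γ hy, hy2]

end transport

section examples

open Pool.Agent.H42.W

/-- parameters -/
abbrev Par : Type := Ioo (0:ℝ) (1 / 2)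

/-- weight `α` on one copy of the Bernoulli space, `1 - α` on the other -/
def nu (Γ : Type u) (α : Par) : Measure ((Γ → Bool) × Bool) :=
  ENNReal.ofReal α • (P Γ).map (fun x => (x, true)) +
    ENNReal.ofReal (1 - α) • (P Γ).map (fun x => (x, false))

theorem measurable_pair (Γ : Type u) (b : Bool) :
    Measurable (fun x : Γ → Bool => (x, b)) := measurable_id.prodMk measurable_const

theorem nu_apply (Γ : Type u) (α : Par) {B : Set ((Γ → Bool) × Bool)} (hB : MeasurableSet B) :
    nu Γ α B = ENNReal.ofReal α * P Γ {x | (x, true) ∈ B} +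
      ENNReal.ofReal (1 - α) * P Γ {x | (x, false) ∈ B} := by
  unfold nu
  rw [Measure.add_apply, Measure.smul_apply, Measure.smul_apply,
    Measure.map_apply (measurable_pair Γ true) hB, Measure.map_apply (measurable_pair Γ false) hB]
  rfl

instance (Γ : Type u) (α : Par) : IsProbabilityMeasure (nu Γ α) := ⟨by
  rw [nu_apply Γ α MeasurableSet.univ]
  simp only [mem_univ, Set.ofPred_true, measure_univ, mul_one]
  rw [← ENNReal.ofReal_add α.2.1.le (by linarith [α.2.2])]
  simp⟩

theorem nu_real (Γ : Type u) (α : Par) {B : Set ((Γ → Bool) × Bool)} (hB : MeasurableSet B) :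
    (nu Γ α).real B = α * (P Γ).real {x | (x, true) ∈ B} +
      (1 - α) * (P Γ).real {x | (x, false) ∈ B} := by
  have h1 : (0:ℝ) ≤ 1 - α := by linarith [α.2.2]
  rw [Measure.real, nu_apply Γ α hB, ENNReal.toReal_add
    (ENNReal.mul_ne_top ENNReal.ofReal_ne_top (measure_ne_top _ _))
    (ENNReal.mul_ne_top ENNReal.ofReal_ne_top (measure_ne_top _ _)), ENNReal.toReal_mul,
    ENNReal.toReal_mul, ENNReal.toReal_ofReal α.2.1.le, ENNReal.toReal_ofReal h1]
  rfl

instance (Γ : Type u) [Infinite Γ] [Countable Γ] (α : Par) : NullSingletonClass (nu Γ α) := by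
  refine ⟨fun z => ?_⟩
  rw [nu_apply Γ α (measurableSet_singleton z)]
  have h : ∀ b : Bool, P Γ {x | (x, b) ∈ ({z} : Set ((Γ → Bool) × Bool))} = 0 := by
    intro b
    apply measure_mono_null (t := {z.1}) _ (measure_singleton _)
    intro x hx
    have : (x, b) = z := hx
    rw [mem_singleton_iff, ← this]
  rw [h, h]
  simp

/-- Bernoulli shift times the trivial action on two weighted points -/
def bern (Γ : Type u) [Group Γ] (α : Par) : PMPAction Γ (nu Γ α) where
  act g z := (shift g z.1, z.2)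
  act_one z := by rw [shift_one]
  act_mul g h z := by rw [shift_mul]
  mp g := by
    have hm : Measurable (fun z : (Γ → Bool) × Bool => (shift g z.1, z.2)) :=
      ((measurable_shift g).comp measurable_fst).prodMk measurable_snd
    refine ⟨hm, ?_⟩
    ext B hB
    rw [Measure.map_apply hm hB, nu_apply Γ α (hm hB), nu_apply Γ α hB]
    have h : ∀ b : Bool, P Γ {x | (x, b) ∈ (fun z : (Γ → Bool) × Bool => (shift g z.1, z.2)) ⁻¹' B}
        = P Γ {x | (x, b) ∈ B} := by
      intro b
      have hms : MeasurableSet {x : Γ → Bool | (x, b) ∈ B} := (measurable_pair Γ b) hB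
      exact (mp_shift g).measure_preimage hms.nullMeasurableSet
    rw [h, h]

theorem bern_free [Infinite Γ] [Countable Γ] (α : Par) : (bern Γ α).IsFree := by
  intro g hg
  have hms : MeasurableSet {z : (Γ → Bool) × Bool | (bern Γ α).act g z = z} :=
    measurableSet_eq_fun ((bern Γ α).mp g).measurable measurable_id
  rw [ae_iff]
  simp only [ne_eq, not_not]
  rw [nu_apply Γ α hms]
  have h : ∀ b : Bool, P Γ {x | (x, b) ∈ {z : (Γ → Bool) × Bool | (bern Γ α).act g z = z}} = 0 := by
    intro b
    have h0 := shift_free (Γ := Γ) hg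
    rw [ae_iff] at h0
    simp only [ne_eq, not_not] at h0
    apply measure_mono_null _ h0
    intro x hx
    have h1 : (shift g x, b) = (x, b) := hx
    exact (Prod.mk.inj h1).1
  rw [h, h]
  simp

theorem near_of_mul_le {p δ : ℝ} (h0 : 0 ≤ p) (h1 : p ≤ 1) (h : p * (1 - p) ≤ δ) :
    p ≤ 2 * δ ∨ 1 - p ≤ 2 * δ := by
  by_cases hp : p ≤ 1 / 2
  · left; nlinarith
  · right; push Not at hp; nlinarith

theorem bern_incomparable (hna : ¬ Pool.Agent.H42.W.Amenable Γ) {α β : Par} (hαβ : α ≠ β) :
    ¬ WeakContained (bern Γ α) (bern Γ β) := by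
  classical
  intro hwc
  obtain ⟨a, ha0, ha1⟩ := α
  obtain ⟨b, hb0, hb1⟩ := β
  have hne : a ≠ b := fun h => hαβ (Subtype.ext h)
  -- a small margin
  obtain ⟨η, hη0, hη1, hη2, hη3⟩ : ∃ η : ℝ, 0 < η ∧ 4 * η < a ∧ 4 * η < |a - b| ∧
      4 * η < 1 / 2 - a := by
    have h1 : 0 < |a - b| := abs_pos.2 (sub_ne_zero.2 hne)
    have h2 : 0 < 1 / 2 - a := by linarith
    refine ⟨min (min a |a - b|) (1 / 2 - a) / 8, ?_, ?_, ?_, ?_⟩
    · have : 0 < min (min a |a - b|) (1 / 2 - a) := lt_min (lt_min ha0 h1) h2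
      linarith
    · have h3 : min (min a |a - b|) (1 / 2 - a) ≤ a := (min_le_left _ _).trans (min_le_left _ _)
      linarith
    · have h3 : min (min a |a - b|) (1 / 2 - a) ≤ |a - b| :=
        (min_le_left _ _).trans (min_le_right _ _)
      linarith
    · have h3 : min (min a |a - b|) (1 / 2 - a) ≤ 1 / 2 - a := min_le_right _ _
      linarith
  obtain ⟨F, ε, hε, hF⟩ := strong_ergodic (Γ := Γ) hna (δ := η / 2) (by linarith)
  set ε' : ℝ := min η (b * ε / 4) with hε'
  have hε'0 : 0 < ε' := lt_min hη0 (by positivity)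
  obtain ⟨B, hB, hcl⟩ := hwc (insert 1 F) ε' hε'0 1 (fun _ => univ ×ˢ {true})
    (fun _ => MeasurableSet.univ.prod (measurableSet_singleton _))
  have hA : ∀ g : Γ, ((bern Γ ⟨a, ha0, ha1⟩).act g '' (univ ×ˢ {true})) ∩ (univ ×ˢ {true}) =
      (univ ×ˢ {true} : Set ((Γ → Bool) × Bool)) := by
    intro g
    rw [PMPAction.image_eq]
    ext ⟨x, c⟩
    simp [bern]
  have hAm : (nu Γ ⟨a, ha0, ha1⟩).real (univ ×ˢ {true} : Set ((Γ → Bool) × Bool)) = a := by
    rw [nu_real Γ _ (MeasurableSet.univ.prod (measurableSet_singleton _))]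
    simp
  set B0 : Set ((Γ → Bool) × Bool) := B 0 with hB0
  have hB0m : MeasurableSet B0 := hB 0
  set N := nu Γ ⟨b, hb0, hb1⟩ with hN
  set S := bern Γ ⟨b, hb0, hb1⟩ with hS
  have hclose : ∀ g ∈ insert (1:Γ) F, |a - N.real ((S.act g '' B0) ∩ B0)| < ε' := by
    intro g hg
    have := hcl g hg 0 0
    rw [hA, hAm] at this
    exact this
  have h1 : |a - N.real B0| < ε' := by
    have := hclose 1 (Finset.mem_insert_self _ _)
    have h2 : (S.act 1 '' B0) ∩ B0 = B0 := by
      have : S.act 1 '' B0 = B0 := by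
        rw [S.image_eq]
        ext x
        simp [S.act_one]
      rw [this, inter_self]
    rwa [h2] at this
  set B1 : Set (Γ → Bool) := {x | (x, true) ∈ B0} with hB1
  set B2 : Set (Γ → Bool) := {x | (x, false) ∈ B0} with hB2
  have hB1m : MeasurableSet B1 := (measurable_pair Γ true) hB0m
  have hB2m : MeasurableSet B2 := (measurable_pair Γ false) hB0m
  have hNB : N.real B0 = b * (P Γ).real B1 + (1 - b) * (P Γ).real B2 := nu_real Γ _ hB0m
  -- almost invariance of the slices
  have hinv : ∀ g ∈ F, b * (P Γ).real (symmDiff (shift g⁻¹ ⁻¹' B1) B1) +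
      (1 - b) * (P Γ).real (symmDiff (shift g⁻¹ ⁻¹' B2) B2) ≤ 4 * ε' := by
    intro g hg
    have hgB : MeasurableSet (S.act g '' B0) := by
      rw [S.image_eq]; exact (S.mp g⁻¹).measurable hB0m
    have hgN : N.real (S.act g '' B0) = N.real B0 := by
      rw [S.image_eq, Measure.real, Measure.real, (S.mp g⁻¹).measure_preimage hB0m.nullMeasurableSet]
    have h3 : N.real (symmDiff (S.act g '' B0) B0) =
        2 * (N.real B0 - N.real ((S.act g '' B0) ∩ B0)) := by
      have e1 : N.real (S.act g '' B0 \ B0) = N.real (S.act g '' B0) - N.real ((S.act g '' B0) ∩ B0) := by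
        have := measureReal_inter_add_sdiff (μ := N) (s := S.act g '' B0) hB0m
        linarith
      have e2 : N.real (B0 \ S.act g '' B0) = N.real B0 - N.real ((S.act g '' B0) ∩ B0) := by
        have := measureReal_inter_add_sdiff (μ := N) (s := B0) hgB
        rw [inter_comm] at this
        linarith
      have e3 : N.real (symmDiff (S.act g '' B0) B0) =
          N.real (S.act g '' B0 \ B0) + N.real (B0 \ S.act g '' B0) := by
        rw [Set.symmDiff_def]
        exact measureReal_union (disjoint_sdiff_sdiff) (hB0m.diff hgB)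
      rw [e3, e1, e2, hgN]
      ring
    have h4 : N.real (symmDiff (S.act g '' B0) B0) ≤ 4 * ε' := by
      rw [h3]
      have h5 := abs_lt.1 (hclose g (Finset.mem_insert_of_mem hg))
      have h6 := abs_lt.1 h1
      linarith [h5.1, h5.2, h6.1, h6.2]
    rw [nu_real Γ _ (hgB.symmDiff hB0m)] at h4
    refine le_trans (le_of_eq ?_) h4
    rw [S.image_eq]
    rfl
  have hsmall : ε' ≤ b * ε / 4 := min_le_right _ _
  have hε'η : ε' ≤ η := min_le_left _ _
  have hnn : ∀ E : Set (Γ → Bool), 0 ≤ (P Γ).real E := fun E => measureReal_nonneg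
  have hd1 : (P Γ).real B1 * (1 - (P Γ).real B1) ≤ η / 2 := by
    apply hF B1 hB1m
    intro g hg
    have h3 := hinv g hg
    have h4 := hnn (symmDiff (shift g⁻¹ ⁻¹' B2) B2)
    have h5 : b * (P Γ).real (symmDiff (shift g⁻¹ ⁻¹' B1) B1) ≤ b * ε := by nlinarith
    exact le_of_mul_le_mul_left h5 hb0
  have hd2 : (P Γ).real B2 * (1 - (P Γ).real B2) ≤ η / 2 := by
    apply hF B2 hB2m
    intro g hg
    have h3 := hinv g hg
    have h4 := hnn (symmDiff (shift g⁻¹ ⁻¹' B1) B1)
    have h6 := hnn (symmDiff (shift g⁻¹ ⁻¹' B2) B2)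
    have h5 : b * (P Γ).real (symmDiff (shift g⁻¹ ⁻¹' B2) B2) ≤ b * ε := by nlinarith
    exact le_of_mul_le_mul_left h5 hb0
  have hp1 := near_of_mul_le (hnn B1) measureReal_le_one hd1
  have hp2 := near_of_mul_le (hnn B2) measureReal_le_one hd2
  have hq1 : (P Γ).real B1 ≤ 1 := measureReal_le_one
  have hq2 : (P Γ).real B2 ≤ 1 := measureReal_le_one
  have hr1 := hnn B1
  have hr2 := hnn B2
  rw [hNB] at h1
  obtain ⟨h1a, h1b⟩ := abs_lt.1 h1
  rcases hp1 with hp1 | hp1 <;> rcases hp2 with hp2 | hp2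
  · nlinarith
  · nlinarith
  · rcases abs_cases (a - b) with ⟨h7, _⟩ | ⟨h7, _⟩ <;> rw [h7] at hη2 <;> nlinarith
  · nlinarith

end examples

section cardinality

open Cardinal

theorem le_of_forall_rat_lt_imp_le_aux {y z : ℝ} (h : ∀ q : ℚ, y ≤ q ↔ z ≤ q) : y ≤ z := by
  apply le_of_forall_gt_imp_ge_of_dense
  intro c hc
  obtain ⟨q, hq1, hq2⟩ := exists_rat_btwn hc
  exact ((h q).2 hq1.le).trans hq2.le

theorem mk_action_le (Γ : Type u) [Group Γ] [Countable Γ] {X : Type v} [MeasurableSpace X]
    [StandardBorelSpace X] (μ : Measure X) : #(PMPAction Γ μ) ≤ 𝔠 := by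
  have he := measurableEmbedding_embeddingReal X
  set e := embeddingReal X with hedef
  have hM : #{t : Set X // MeasurableSet t} ≤ 𝔠 := by
    obtain ⟨b, hb, hgen⟩ := MeasurableSpace.CountablyGenerated.isCountablyGenerated (α := X)
    rw [hgen]
    exact MeasurableSpace.cardinal_measurableSet_le_continuum
      ((Cardinal.le_aleph0_iff_set_countable.2 hb).trans Cardinal.aleph0_le_continuum)
  let Φ : PMPAction Γ μ → (Γ × ℚ → {t : Set X // MeasurableSet t}) := fun a p =>
    ⟨{x | e (a.act p.1 x) ≤ p.2},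
      measurableSet_le (he.measurable.comp (a.mp p.1).measurable) measurable_const⟩
  have hinj : Function.Injective Φ := by
    intro a b hab
    have h1 : ∀ g x, a.act g x = b.act g x := by
      intro g x
      apply he.injective
      have h2 : ∀ q : ℚ, e (a.act g x) ≤ q ↔ e (b.act g x) ≤ q := by
        intro q
        have h3 := congrArg Subtype.val (congrFun hab (g, q))
        have h4 := congrArg (fun t : Set X => x ∈ t) h3
        exact iff_of_eq h4
      apply le_antisymm
      · apply le_of_forall_rat_lt_imp_le_aux h2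
      · apply le_of_forall_rat_lt_imp_le_aux (fun q => (h2 q).symm)
    cases a
    cases b
    have : (fun g x => _) = (fun g x => _) := funext fun g => funext fun x => h1 g x
    simp only at this
    congr
  refine (Cardinal.mk_le_of_injective hinj).trans ?_
  rw [Cardinal.mk_arrow]
  have h1 : Cardinal.lift.{u} #{t : Set X // MeasurableSet t} ≤ 𝔠 := by
    rw [← Cardinal.lift_continuum.{u, v}]
    exact Cardinal.lift_le.2 hM
  have h2 : Cardinal.lift.{v} #(Γ × ℚ) ≤ ℵ₀ := by
    rw [Cardinal.lift_le_aleph0]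
    exact Cardinal.mk_le_aleph0
  calc Cardinal.lift.{u} #{t : Set X // MeasurableSet t} ^ Cardinal.lift.{v} #(Γ × ℚ)
      ≤ 𝔠 ^ Cardinal.lift.{v} #(Γ × ℚ) := Cardinal.power_le_power_right h1
    _ ≤ 𝔠 ^ ℵ₀ := Cardinal.power_le_power_left Cardinal.continuum_ne_zero h2
    _ = 𝔠 := Cardinal.continuum_power_aleph0

theorem mk_antichain_le [Countable Γ] [StandardBorelSpace X] (S : Set (PMPAction Γ μ)) :
    #S ≤ 𝔠 := (Cardinal.mk_set_le S).trans (mk_action_le Γ μ)

theorem exists_antichain [Countable Γ] (hna : ¬ Amenable Γ) [StandardBorelSpace X]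
    [IsProbabilityMeasure μ] [NullSingletonClass μ] :
    ∃ S : Set (PMPAction Γ μ), IsFreeAntichain S ∧ #S = 𝔠 := by
  have hna' : ¬ Pool.Agent.H42.W.Amenable Γ := hna
  have : Infinite Γ := Pool.Agent.H42.W.infinite_of_not_amenable hna'
  have hex : ∀ α : Par, ∃ T : PMPAction Γ μ, T.IsFree ∧ WeakContained (bern Γ α) T ∧
      WeakContained T (bern Γ α) := by
    intro α
    obtain ⟨f, g, H⟩ := Pool.Agent.H42.W.exists_inv μ (nu Γ α)
    exact ⟨transport H (bern Γ α), transport_free H _ (bern_free α), wc_transport_left H _,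
      wc_transport_right H _⟩
  choose T hfree hl hr using hex
  have hinc : ∀ α β : Par, α ≠ β → ¬ WeakContained (T α) (T β) := by
    intro α β hαβ hwc
    exact bern_incomparable hna' hαβ (((hl α).trans hwc).trans (hr β))
  have hinj : Function.Injective T := by
    intro α β hαβ
    by_contra hne
    apply hinc α β hne
    rw [hαβ]
    exact WeakContained.refl _
  refine ⟨range T, ⟨?_, ?_⟩, ?_⟩
  · rintro a ⟨α, rfl⟩
    exact hfree α
  · rintro a ⟨α, rfl⟩ b ⟨β, rfl⟩ hab
    have hne : α ≠ β := fun h => hab (by rw [h])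
    exact ⟨hinc α β hne, hinc β α hne.symm⟩
  · have h := Cardinal.mk_range_eq_lift.{0, max u v, 0} hinj
    rw [Cardinal.mk_Ioo_real (by norm_num), Cardinal.lift_continuum] at h
    simpa using h

/-- For every countable nonamenable group the width of the free pmp actions on the standard
atomless probability space is the continuum, and the supremum is attained. -/
theorem main (Γ : Type u) [Group Γ] [Countable Γ] (hΓ : ¬ Amenable Γ)
    (X : Type v) [MeasurableSpace X] [StandardBorelSpace X] (μ : Measure X)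
    [IsProbabilityMeasure μ] [NullSingletonClass μ] :
    width Γ μ = Cardinal.continuum ∧
      ∃ S : Set (PMPAction Γ μ), IsFreeAntichain S ∧ Cardinal.mk S = Cardinal.continuum := by
  obtain ⟨S, hS, hcard⟩ := exists_antichain (Γ := Γ) (μ := μ) hΓ
  refine ⟨le_antisymm ?_ ?_, S, hS, hcard⟩
  · apply csSup_le'
    rintro c ⟨S', -, rfl⟩
    exact mk_antichain_le S'
  · rw [← hcard]
    apply le_csSup
    · refine ⟨Cardinal.continuum, ?_⟩
      rintro c ⟨S', -, rfl⟩
      exact mk_antichain_le S'
    · exact ⟨S, hS, rfl⟩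

end cardinality

end

end Pool.Agent.H42.Width
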